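import Pool.Agent.H746UG.JN
import Pool.Agent.H746UG.VN
import Pool.Agent.N768.G3.ALG
import Pool.Agent.N700.G3.CA

/-!
# Characters of infinite order of metabelian polycyclic groups
-/

set_option autoImplicit false
set_option linter.unusedSectionVars false

namespace Pool.Agent.K9h73.DL

open Pool.Agent.H746UG Subgroup
open scoped IsMulCommutative commutatorElement TensorProduct

universe u

section strong

variable {G : Type*} [Group G] (N : Subgroup G) [N.Normal] [hN : IsMulCommutative N]

/-- `H746UG.vn_of_VU` with a nilpotent subgroup containing `N` -/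
theorem vn_strong (hQ : ∀ g h : G, g * h * g⁻¹ * h⁻¹ ∈ N)
    (S : Set G) (hS : S.Finite) (hgen : Subgroup.closure S = ⊤)
    (h : VU N hQ ⊥) : ∃ H : Subgroup G, H.Normal ∧ H.FiniteIndex ∧ N ≤ H ∧
      Group.IsNilpotent H := by
  classical
  have hGfg : Group.FG G := ⟨⟨hS.toFinset, by rw [Set.Finite.coe_toFinset]; exact hgen⟩⟩
  have h' : ∀ g, ∃ m > 0, ∃ k, (qg N hQ g ^ m - 1) ^ k = 0 := by
    intro g
    obtain ⟨m, hm, k, hk⟩ := h g
    exact ⟨m, hm, k, RR_faithful N _ (fun a => (Submodule.mem_bot _).mp (hk a))⟩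
  choose mm hmm kk hkk using h'
  set M0 := ∏ s ∈ hS.toFinset, mm s with hM0
  have hM0pos : 0 < M0 := Finset.prod_pos fun s _ => hmm s
  have hnil : ∀ s ∈ S, IsNilpotent (qg N hQ s ^ M0 - 1) := by
    intro s hs
    obtain ⟨d, hd⟩ : mm s ∣ M0 := Finset.dvd_prod_of_mem _ (hS.mem_toFinset.mpr hs)
    obtain ⟨c, hc⟩ : (qg N hQ s ^ mm s - 1) ∣ (qg N hQ s ^ M0 - 1) := by
      rw [hd, pow_mul]
      simpa using sub_dvd_pow_sub_pow (qg N hQ s ^ mm s) 1 d
    refine ⟨kk s, ?_⟩
    rw [hc, mul_pow, hkk s, zero_mul]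
  let J : Ideal (RR N) := Ideal.span ((fun s => qg N hQ s ^ M0 - 1) '' S)
  have hJfg : J.FG := Submodule.fg_span (hS.image _)
  have hJnil : IsNilpotent J := by
    rw [Ideal.FG.isNilpotent_iff_le_nilradical hJfg, Ideal.span_le]
    rintro _ ⟨s, hs, rfl⟩
    exact mem_nilradical.mpr (hnil s hs)
  obtain ⟨K, F, hF0, hFs, hFK⟩ := nil_chain (M := Additive N) J hJnil
  -- the subgroup
  let H : Subgroup G :=
    { carrier := {g | qg N hQ g - 1 ∈ J}
      mul_mem' := by
        intro g h hg hh
        show qg N hQ (g * h) - 1 ∈ J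
        have : qg N hQ (g * h) - 1 = qg N hQ g * (qg N hQ h - 1) + (qg N hQ g - 1) := by
          rw [map_mul]; ring
        rw [this]
        exact J.add_mem (J.mul_mem_left _ hh) hg
      one_mem' := by
        show qg N hQ 1 - 1 ∈ J
        rw [map_one, sub_self]; exact J.zero_mem
      inv_mem' := by
        intro g hg
        show qg N hQ g⁻¹ - 1 ∈ J
        have h1 : qg N hQ g⁻¹ * qg N hQ g = 1 := by
          rw [← map_mul, inv_mul_cancel, map_one]
        have : qg N hQ g⁻¹ - 1 = -(qg N hQ g⁻¹ * (qg N hQ g - 1)) := by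
          rw [mul_sub, h1]; ring
        rw [this]
        exact J.neg_mem (J.mul_mem_left _ hg) }
  have hNH : N ≤ H := by
    intro g hg
    show qg N hQ g - 1 ∈ J
    have : qg N hQ g - 1 = 0 := by
      apply RR_faithful
      intro a
      rw [sub_smul, qg_smul, one_smul, th_of_mem hg]
      exact sub_self a
    rw [this]; exact J.zero_mem
  have hHn : H.Normal := Subgroup.Normal.of_commutator_le G ((comm_le N hQ).trans hNH)
  have hpow : ∀ g, g ^ M0 ∈ H := by
    let V : Subgroup G :=
      { carrier := {g | g ^ M0 ∈ H}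
        mul_mem' := by
          intro g h hg hh
          show qg N hQ ((g * h) ^ M0) - 1 ∈ J
          have : qg N hQ ((g * h) ^ M0) = qg N hQ (g ^ M0 * h ^ M0) := by
            rw [map_pow, map_mul, map_mul, map_pow, map_pow, mul_pow]
          rw [this]
          exact H.mul_mem hg hh
        one_mem' := by
          show (1 : G) ^ M0 ∈ H
          rw [one_pow]; exact H.one_mem
        inv_mem' := by
          intro g hg
          show g⁻¹ ^ M0 ∈ H
          rw [inv_pow]; exact H.inv_mem hg }
    have hV : (⊤ : Subgroup G) ≤ V := by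
      rw [← hgen, Subgroup.closure_le]
      intro s hs
      show qg N hQ (s ^ M0) - 1 ∈ J
      rw [map_pow]
      exact Ideal.subset_span ⟨s, hs, rfl⟩
    exact fun g => hV (mem_top g)
  have hfi : H.FiniteIndex := by
    let inst : CommGroup (G ⧸ H) :=
      { (inferInstance : Group (G ⧸ H)) with
        mul_comm := by
          intro a b
          obtain ⟨a, rfl⟩ := QuotientGroup.mk_surjective a
          obtain ⟨b, rfl⟩ := QuotientGroup.mk_surjective b
          have h1 := (QuotientGroup.eq_one_iff _).mpr (hNH (hQ a b))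
          rw [QuotientGroup.mk_mul, QuotientGroup.mk_mul, QuotientGroup.mk_mul,
            QuotientGroup.mk_inv, QuotientGroup.mk_inv] at h1
          have h2 := mul_inv_eq_one.mp h1
          rwa [mul_inv_eq_iff_eq_mul] at h2 }
    have h1 : Finite (G ⧸ H) := by
      apply CommGroup.finite_of_fg_isMulTorsion
      intro x
      obtain ⟨x, rfl⟩ := QuotientGroup.mk_surjective x
      rw [isOfFinOrder_iff_pow_eq_one]
      exact ⟨M0, hM0pos, (QuotientGroup.eq_one_iff _).mpr (hpow x)⟩
    exact Subgroup.finiteIndex_of_finite_quotient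
  -- the descending central series of `H`
  let NN : ℕ → Subgroup G := fun j =>
    { carrier := {x | ∃ a ∈ F j, val N a = x}
      mul_mem' := by
        rintro x y ⟨a, ha, rfl⟩ ⟨b, hb, rfl⟩
        exact ⟨a + b, Submodule.add_mem _ ha hb, val_add a b⟩
      one_mem' := ⟨0, Submodule.zero_mem _, val_zero⟩
      inv_mem' := by
        rintro x ⟨a, ha, rfl⟩
        exact ⟨-a, Submodule.neg_mem _ ha, val_neg a⟩ }
  let D : ℕ → Subgroup H := fun j => Nat.casesOn j ⊤ (fun j => (NN j).subgroupOf H)
  have hnilp : Group.IsNilpotent H := by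
    rw [Subgroup.nilpotent_iff_finite_descending_central_series]
    refine ⟨K + 1, D, ⟨rfl, ?_⟩, ?_⟩
    · intro x n hx g
      cases n with
      | zero =>
        show (x : G) * g * (x : G)⁻¹ * (g : G)⁻¹ ∈ NN 0
        refine ⟨el N _ (hQ x g), ?_, rfl⟩
        show el N _ (hQ x g) ∈ F 0
        rw [hF0]; exact Submodule.mem_top
      | succ n =>
        obtain ⟨a, ha, hax⟩ := (show (x : G) ∈ NN n from hx)
        show (x : G) * g * (x : G)⁻¹ * (g : G)⁻¹ ∈ NN (n + 1)
        refine ⟨-((qg N hQ g - 1) • a), ?_, ?_⟩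
        · exact Submodule.neg_mem _ (hFs n _ g.2 a ha)
        · have : -((qg N hQ g - 1) • a) = a - th N g a := by
            rw [sub_smul, qg_smul, one_smul]; abel
          rw [this, val_sub, val_th, hax]
          group
    · show (NN K).subgroupOf H = ⊥
      rw [eq_bot_iff]
      intro x hx
      obtain ⟨a, ha, hax⟩ := (show (x : G) ∈ NN K from hx)
      rw [hFK, Submodule.mem_bot] at ha
      rw [ha, val_zero] at hax
      rw [mem_bot]
      exact Subtype.ext hax.symm
  exact ⟨H, hHn, hfi, hNH, hnilp⟩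

/-- the acting ring is finite over `ℤ` -/
theorem RR_finite_of (hf : Module.Finite ℤ (Additive N)) (hft : Algebra.FiniteType ℤ (RR N)) :
    Module.Finite ℤ (RR N) := by
  have hint : Algebra.IsIntegral ℤ (RR N) := by
    refine ⟨fun r => ?_⟩
    obtain ⟨p, hp, hp0⟩ := LinearMap.exists_monic_and_aeval_eq_zero ℤ
      (RingHom.kerLift (phi N) r : Module.End ℤ (Additive N))
    refine ⟨p, hp, ?_⟩
    let ψ : RR N →ₐ[ℤ] Module.End ℤ (Additive N) := (RingHom.kerLift (phi N)).toIntAlgHom
    have h1 : ψ (Polynomial.aeval r p) = 0 := by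
      rw [← Polynomial.aeval_algHom_apply]
      exact hp0
    have h3 := (RingHom.kerLift_injective (phi N)) (h1.trans (map_zero _).symm)
    exact h3
  exact Algebra.IsIntegral.finite

end strong

/-- a domain which is finite over `ℤ` and has a unit of infinite order embeds into `ℂ` -/
theorem exists_emb {D : Type u} [CommRing D] [IsDomain D] [Module.Finite ℤ D] (q q' : D)
    (hqq : q * q' = 1) (hq : ∀ m > 0, q ^ m ≠ 1) {F : Type u} [Field F] [Algebra D F]
    [IsFractionRing D F] : Nonempty (F →+* ℂ) := by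
  have hinj : Function.Injective (algebraMap ℤ D) := by
    rw [injective_iff_map_eq_zero]
    intro n hn
    by_contra hn0
    have htors : Module.IsTorsion ℤ D := by
      intro x
      refine ⟨⟨n, mem_nonZeroDivisors_of_ne_zero hn0⟩, ?_⟩
      show n • x = 0
      rw [← Int.cast_smul_eq_zsmul D n x]
      have : ((n : ℤ) : D) = 0 := by
        rw [← hn]; rfl
      rw [this, zero_smul]
    have hfin : Finite D := Module.finite_of_fg_torsion D htors
    let w : Dˣ := ⟨q, q', hqq, by rw [mul_comm]; exact hqq⟩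
    have hw := isOfFinOrder_of_finite w
    rw [isOfFinOrder_iff_pow_eq_one] at hw
    obtain ⟨m, hm, h1⟩ := hw
    exact hq m hm (by
      have := congrArg Units.val h1
      simpa using this)
  have hfs : FaithfulSMul ℤ D := (faithfulSMul_iff_algebraMap_injective ℤ D).2 hinj
  have halg : Algebra.IsAlgebraic ℤ D := inferInstance
  have hfsF : FaithfulSMul ℤ F := by
    rw [faithfulSMul_iff_algebraMap_injective, IsScalarTower.algebraMap_eq ℤ D F]
    exact (IsFractionRing.injective D F).comp hinj
  have htf : Module.IsTorsionFree ℤ F := Module.isTorsionFree_iff_faithfulSMul.2 hfsF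
  have halgF : Algebra.IsAlgebraic ℤ F := (IsFractionRing.isAlgebraic_iff' ℤ D F).1 halg
  exact ⟨(IsAlgClosed.lift : F →ₐ[ℤ] ℂ).toRingHom⟩

/-- characters of infinite order of metabelian polycyclic groups -/
theorem alg_char (M : Type u) [Group M] [hFG : Group.FG M]
    (hab : ∀ x ∈ commutator M, ∀ y ∈ commutator M, x * y = y * x) (hfg : (commutator M).FG) :
    (∃ L : Subgroup M, L.Normal ∧ L.FiniteIndex ∧ commutator M ≤ L ∧ Group.IsNilpotent L) ∨
    ∃ (F : Type u) (_ : Field F) (τ : F →+* ℂ) (χ : M →* Fˣ) (f : M → F),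
      (∀ x ∈ commutator M, ∀ y ∈ commutator M, f (x * y) = f x + f y) ∧
      (∀ m, ∀ x ∈ commutator M, f (m * x * m⁻¹) = (χ m : F) * f x) ∧
      (∃ x ∈ commutator M, f x ≠ 0) ∧ (∃ m, ∀ k > 0, (χ m) ^ k ≠ 1) ∧
      (∀ m, IsIntegral ℤ (τ (χ m : F))) := by
  classical
  let N : Subgroup M := commutator M
  have hNc : IsMulCommutative N := ⟨⟨fun a b => Subtype.ext (hab a a.2 b b.2)⟩⟩
  have hQ : ∀ g h : M, g * h * g⁻¹ * h⁻¹ ∈ N := fun g h =>
    Subgroup.commutator_mem_commutator (mem_top g) (mem_top h)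
  have hcen : center (M ⧸ N) = ⊤ := N768.G3.center_top M
  have hfi : FiniteIndex (center (M ⧸ N)) := by
    rw [hcen]; infer_instance
  obtain ⟨S, hS⟩ := (Group.FG.out : (⊤ : Subgroup M).FG)
  have hno : IsNoetherianRing (RR N) := RR_noetherian N
  have hZ : Module.Finite ℤ (Additive N) := finite_of_fg N hfg
  have hRZ : Module.Finite ℤ (RR N) := RR_finite_of N hZ (RR_finiteType N)
  have hfinR : Module.Finite (RR N) (Additive N) := by
    obtain ⟨s, hs⟩ := hZ.fg_top
    refine ⟨⟨s, ?_⟩⟩
    rw [eq_top_iff]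
    intro x _
    have hx : x ∈ Submodule.span ℤ (s : Set (Additive N)) := by rw [hs]; trivial
    refine Submodule.span_induction (p := fun y _ => y ∈ Submodule.span (RR N)
      (s : Set (Additive N))) ?_ ?_ ?_ ?_ hx
    · exact fun y hy => Submodule.subset_span hy
    · exact Submodule.zero_mem _
    · exact fun y z _ _ hy hz => Submodule.add_mem _ hy hz
    · exact fun n y _ hy => zsmul_mem hy n
  have hnoeth : IsNoetherian (RR N) (Additive N) := isNoetherian_of_isNoetherianRing_of_finite _ _
  by_cases hVU : VU N hQ ⊥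
  · left
    exact vn_strong N hQ (S : Set M) S.finite_toSet hS hVU
  right
  obtain ⟨W, hprime, hU⟩ := exists_prime N hQ hnoeth hVU
  let P : Ideal (RR N) :=
    { carrier := {r | ∀ a : Additive N, r • a ∈ W}
      add_mem' := fun {r r'} hr hr' a => by
        rw [add_smul]; exact W.add_mem (hr a) (hr' a)
      zero_mem' := fun a => by rw [zero_smul]; exact W.zero_mem
      smul_mem' := fun c r hr a => by
        rw [smul_eq_mul, mul_smul]; exact W.smul_mem c (hr a) }
  have hPp : P.IsPrime := by
    refine ⟨?_, ?_⟩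
    · intro h
      obtain ⟨g, hg⟩ := hU
      have h1 : (1 : RR N) ∈ P := by rw [h]; trivial
      refine hg 1 Nat.one_pos (fun a => ?_)
      apply W.smul_mem
      have := h1 a
      rwa [one_smul] at this
    · intro r r' hrr
      rcases hprime r with h1 | h1
      · left; exact h1
      · right
        intro a
        apply h1
        have := hrr a
        rwa [mul_smul] at this
  let p : PrimeSpectrum (RR N) := ⟨P, hPp⟩
  have hp : p ∈ Module.support (RR N) (Additive N) := by
    rw [Module.mem_support_iff_of_finite]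
    intro r hr a
    rw [Module.mem_annihilator] at hr
    rw [hr a]
    exact W.zero_mem
  rw [Module.mem_support_iff_nontrivial_residueField_tensorProduct] at hp
  obtain ⟨v, hv⟩ := exists_ne (0 : p.asIdeal.ResidueField ⊗[RR N] Additive N)
  obtain ⟨l, hl⟩ : ∃ l : Module.Dual p.asIdeal.ResidueField
      (p.asIdeal.ResidueField ⊗[RR N] Additive N), l v ≠ 0 := by
    by_contra hcon
    push Not at hcon
    exact hv ((Module.forall_dual_apply_eq_zero_iff _ v).1 hcon)
  let f0 : Additive N →ₗ[RR N] p.asIdeal.ResidueField :=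
    (l.restrictScalars (RR N)) ∘ₗ (TensorProduct.mk (RR N) p.asIdeal.ResidueField (Additive N) 1)
  have hf0 : ∃ a, f0 a ≠ 0 := by
    by_contra hcon
    push Not at hcon
    apply hl
    have h1 : ∀ n : Additive N, l (1 ⊗ₜ[RR N] n) = 0 := fun n => hcon n
    have h2 : l = 0 := by
      apply TensorProduct.AlgebraTensorModule.curry_injective
      ext n
      simpa using h1 n
    rw [h2]
    rfl
  let φ : RR N →+* p.asIdeal.ResidueField := algebraMap (RR N) p.asIdeal.ResidueField
  have hker : RingHom.ker φ = P := p.asIdeal.ker_algebraMap_residueField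
  obtain ⟨g1, hg1⟩ := hU
  have hqq : qg N hQ g1 * qg N hQ g1⁻¹ = 1 := by
    rw [← map_mul, mul_inv_cancel, map_one]
  have hDfin : Module.Finite ℤ (RR N ⧸ P) := Module.Finite.of_surjective
    (Ideal.Quotient.mk P).toIntAlgHom.toLinearMap Ideal.Quotient.mk_surjective
  have hne1 : ∀ m > 0, (Ideal.Quotient.mk P (qg N hQ g1)) ^ m ≠ 1 := by
    intro m hm h
    apply hg1 m hm
    have h1 : Ideal.Quotient.mk P (qg N hQ g1 ^ m - 1) = 0 := by
      rw [map_sub, map_pow, h, map_one, sub_self]
    exact Ideal.Quotient.eq_zero_iff_mem.1 h1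
  obtain ⟨τ⟩ := exists_emb (D := RR N ⧸ P) (Ideal.Quotient.mk P (qg N hQ g1))
    (Ideal.Quotient.mk P (qg N hQ g1⁻¹)) (by rw [← map_mul, hqq, map_one]) hne1
    (F := p.asIdeal.ResidueField)
  let χ : M →* (p.asIdeal.ResidueField)ˣ :=
    ((φ : RR N →* p.asIdeal.ResidueField).comp (qg N hQ)).toHomUnits
  have hχ : ∀ m, ((χ m : (p.asIdeal.ResidueField)ˣ) : p.asIdeal.ResidueField) =
      φ (qg N hQ m) := fun m => rfl
  refine ⟨p.asIdeal.ResidueField, inferInstance, τ, χ,
    fun m => if h : m ∈ commutator M then f0 (el N m h) else 0, ?_, ?_, ?_, ?_, ?_⟩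
  · intro a ha b hb
    simp only [ha, hb, mul_mem ha hb, dif_pos]
    rw [← map_add]
    rfl
  · intro m a ha
    have hc : m * a * m⁻¹ ∈ commutator M := (inferInstance : (commutator M).Normal).conj_mem a ha m
    simp only [ha, hc, dif_pos]
    rw [hχ]
    have h5 := qg_smul N hQ m (el N a ha)
    have h6 : f0 (qg N hQ m • el N a ha) = φ (qg N hQ m) * f0 (el N a ha) := by
      rw [map_smul, Algebra.smul_def]
    rw [← h6]
    congr 1
    refine Eq.trans ?_ h5.symm
    apply val_inj
    rw [val_th, val_el, val_el]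
  · obtain ⟨a, ha⟩ := hf0
    have hm : val N a ∈ commutator M := val_mem a
    refine ⟨val N a, hm, ?_⟩
    show (if h : val N a ∈ commutator M then f0 (el N _ h) else 0) ≠ 0
    rw [dif_pos hm]
    exact ha
  · refine ⟨g1, fun k hk h => ?_⟩
    apply hg1 k hk
    have h1 : φ (qg N hQ g1 ^ k - 1) = 0 := by
      have h2 := congrArg Units.val h
      rw [Units.val_pow_eq_pow_val, hχ, Units.val_one] at h2
      rw [map_sub, map_pow, h2, map_one, sub_self]
    have h3 : qg N hQ g1 ^ k - 1 ∈ RingHom.ker φ := h1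
    rw [hker] at h3
    exact h3
  · intro m
    rw [hχ]
    have h1 : IsIntegral ℤ (qg N hQ m) := Algebra.IsIntegral.isIntegral _
    exact h1.map (τ.comp φ).toIntAlgHom

end Pool.Agent.K9h73.DL
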