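import Pool.Agent.K9h73.DL.Ent

/-!
# The noise lemma

Replacing the coefficients `γ ^ r` of a random sum by `γ ^ r σ(s_r)` with independent uniform
`s_r` costs, on the average over `s`, at most half of the entropy.
-/

set_option autoImplicit false
set_option linter.unusedSectionVars false

namespace Pool.Agent.K9h73.DL

open Finset

section abstract

variable {A : Type} [Fintype A] [DecidableEq A] {R : ℕ}

/-- prefix of the graph of `s` -/
def pre (s : Fin R → A) (n : ℕ) : Finset (Fin R × A) :=
  (univ.filter fun r : Fin R => (r : ℕ) < n).image fun r => (r, s r)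

theorem pre_zero (s : Fin R → A) : pre s 0 = ∅ := by simp [pre]

theorem pre_succ (s : Fin R → A) (r : Fin R) :
    pre s ((r : ℕ) + 1) = insert (r, s r) (pre s r) := by
  unfold pre
  rw [← Finset.image_insert (fun r => (r, s r))]
  congr 1
  ext i
  simp only [mem_filter, mem_univ, true_and, mem_insert, Fin.ext_iff]
  omega

theorem pre_full (s : Fin R → A) : pre s R = univ.image fun r => (r, s r) := by
  unfold pre
  congr 1
  ext i
  simp

theorem pre_update (s : Fin R → A) (r : Fin R) (α : A) :
    pre (Function.update s r α) r = pre s r := by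
  unfold pre
  refine Finset.image_congr ?_
  intro i hi
  have h1 : (i : ℕ) < r := by simpa using hi
  have h2 : i ≠ r := by
    intro h
    rw [h] at h1
    exact lt_irrefl _ h1
  show (i, Function.update s r α i) = (i, s i)
  rw [Function.update_of_ne h2]

theorem pre_mono (s : Fin R → A) {m n : ℕ} (h : m ≤ n) : pre s m ⊆ pre s n := by
  unfold pre
  refine Finset.image_subset_image ?_
  intro i hi
  rw [mem_filter] at hi ⊢
  exact ⟨hi.1, hi.2.trans_le h⟩

theorem swap_sum (r : Fin R) (h : (Fin R → A) → A → ℝ)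
    (hh : ∀ s α β, h (Function.update s r β) α = h s α) :
    (Fintype.card A : ℝ) * ∑ s, h s (s r) = ∑ s, ∑ α, h s α := by
  let e : (Fin R → A) × A → (Fin R → A) × A := fun p => (Function.update p.1 r p.2, p.1 r)
  have he : Function.Involutive e := by
    rintro ⟨s, α⟩
    show (Function.update (Function.update s r α) r (s r), Function.update s r α r) = (s, α)
    rw [Function.update_idem, Function.update_eq_self, Function.update_self]
  have h1 : (Fintype.card A : ℝ) * ∑ s, h s (s r) = ∑ p : (Fin R → A) × A, h p.1 (p.1 r) := by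
    rw [Fintype.sum_prod_type, Finset.mul_sum]
    refine Finset.sum_congr rfl fun s _ => ?_
    simp
  have h2 : ∑ s, ∑ α, h s α = ∑ p : (Fin R → A) × A, h p.1 p.2 := by
    rw [Fintype.sum_prod_type]
  rw [h1, h2, ← Equiv.sum_comp he.toPerm]
  refine Finset.sum_congr rfl fun p _ => ?_
  show h (Function.update p.1 r p.2) (Function.update p.1 r p.2 r) = h p.1 p.2
  rw [Function.update_self, hh]

theorem noise_abs [Nonempty A] (f : Finset (Fin R × A) → ℝ) (h0 : f ∅ = 0)
    (hm : ∀ S T, S ⊆ T → f S ≤ f T)
    (hs : ∀ S T e, S ⊆ T → f (insert e T) - f T ≤ f (insert e S) - f S) :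
    (Fintype.card A : ℝ) ^ R * ∑ α : A, f (univ.image fun r : Fin R => (r, α)) ≤
      2 * (Fintype.card A : ℝ) * ∑ s : Fin R → A, f (univ.image fun r : Fin R => (r, s r)) := by
  have ha : ∀ s : Fin R → A, f (pre s R) =
      ∑ r : Fin R, (f (insert (r, s r) (pre s r)) - f (pre s r)) := by
    intro s
    have h1 := Finset.sum_range_sub (fun n => f (pre s n)) R
    rw [pre_zero, h0, sub_zero] at h1
    rw [← h1, Finset.sum_range]
    refine Finset.sum_congr rfl fun r _ => ?_
    rw [pre_succ]
  have hb : (Fintype.card A : ℝ) * ∑ s : Fin R → A, f (pre s R) =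
      ∑ s : Fin R → A, ∑ α, ∑ r : Fin R, (f (insert (r, α) (pre s r)) - f (pre s r)) := by
    calc (Fintype.card A : ℝ) * ∑ s : Fin R → A, f (pre s R)
        = (Fintype.card A : ℝ) * ∑ r : Fin R, ∑ s : Fin R → A,
            (f (insert (r, s r) (pre s r)) - f (pre s r)) := by
          rw [Finset.sum_comm]
          congr 1
          exact Finset.sum_congr rfl fun s _ => ha s
      _ = ∑ r : Fin R, ∑ s : Fin R → A, ∑ α, (f (insert (r, α) (pre s r)) - f (pre s r)) := by
          rw [Finset.mul_sum]
          refine Finset.sum_congr rfl fun r _ => ?_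
          exact swap_sum r (fun s α => f (insert (r, α) (pre s r)) - f (pre s r))
            (fun s α β => by rw [pre_update])
      _ = _ := by
          rw [Finset.sum_comm]
          refine Finset.sum_congr rfl fun s _ => ?_
          rw [Finset.sum_comm]
  have hc : ∀ (s : Fin R → A) (α : A), f (pre (fun _ => α) R) - f (pre s R) ≤
      ∑ r : Fin R, (f (insert (r, α) (pre s r)) - f (pre s r)) := by
    intro s α
    have h1 := Finset.sum_range_sub (fun n => f (pre s R ∪ pre (fun _ => α) n)) R
    rw [pre_zero, union_empty] at h1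
    have h2 : f (pre (fun _ => α) R) ≤ f (pre s R ∪ pre (fun _ => α) R) :=
      hm _ _ subset_union_right
    have h3 : ∑ n ∈ range R, (f (pre s R ∪ pre (fun _ => α) (n + 1)) -
        f (pre s R ∪ pre (fun _ => α) n)) ≤
        ∑ r : Fin R, (f (insert (r, α) (pre s r)) - f (pre s r)) := by
      rw [Finset.sum_range]
      refine Finset.sum_le_sum fun r _ => ?_
      rw [pre_succ, Finset.union_insert]
      exact hs _ _ _ ((pre_mono s r.2.le).trans subset_union_left)
    linarith
  have hd : ∑ s : Fin R → A, ∑ α : A, (f (pre (fun _ => α) R) - f (pre s R)) ≤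
      (Fintype.card A : ℝ) * ∑ s : Fin R → A, f (pre s R) := by
    rw [hb]
    exact Finset.sum_le_sum fun s _ => Finset.sum_le_sum fun α _ => hc s α
  have he : ∑ s : Fin R → A, ∑ α : A, (f (pre (fun _ => α) R) - f (pre s R)) =
      (Fintype.card A : ℝ) ^ R * ∑ α : A, f (pre (fun _ => α) R) -
        (Fintype.card A : ℝ) * ∑ s : Fin R → A, f (pre s R) := by
    have h1 : ∀ s : Fin R → A, ∑ α : A, (f (pre (fun _ => α) R) - f (pre s R)) =
        ∑ α : A, f (pre (fun _ => α) R) - (Fintype.card A : ℝ) * f (pre s R) := by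
      intro s
      rw [Finset.sum_sub_distrib]
      simp
    rw [Finset.sum_congr rfl fun s _ => h1 s, Finset.sum_sub_distrib, ← Finset.mul_sum]
    simp
  have hf : ∀ s : Fin R → A, f (univ.image fun r : Fin R => (r, s r)) = f (pre s R) := by
    intro s
    rw [pre_full]
  have hg : ∀ α : A, f (univ.image fun r : Fin R => (r, α)) =
      f (pre (fun _ : Fin R => α) R) := by
    intro α
    rw [pre_full]
  rw [Finset.sum_congr rfl fun s _ => hf s, Finset.sum_congr rfl fun α _ => hg α]
  rw [he] at hd
  linarith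

end abstract

section bridge

variable {F : Type*} [AddCommGroup F]

open Classical in
/-- logarithmic size of the fibres of the random subset sum -/
noncomputable def LF {R : ℕ} (v : Fin R → F) : ℝ :=
  ∑ x : Fin R → Bool, Real.log (Nat.card {x' : Fin R → Bool //
    ∑ r, (if x' r then v r else 0) = ∑ r, (if x r then v r else 0)})

/-- entropy of the random subset sum -/
noncomputable def hF {R : ℕ} (v : Fin R → F) : ℝ := R * Real.log 2 - LF v / 2 ^ R

theorem cnt_map {ι κ : Type*} [DecidableEq ι] [DecidableEq κ] (a : κ → F) (e : ι ↪ κ)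
    (S : Finset ι) : ∀ y, cnt a (S.map e) y = cnt (fun i => a (e i)) S y := by
  induction S using Finset.induction_on with
  | empty =>
    intro y
    rw [Finset.map_empty]
    unfold cnt
    rw [Finset.powerset_empty, Finset.powerset_empty, Finset.sum_singleton,
      Finset.sum_singleton, Finset.sum_empty, Finset.sum_empty]
  | insert j S hj ih =>
    intro y
    rw [Finset.map_insert, cnt_insert a, cnt_insert _ hj, ih, ih]
    rw [Finset.mem_map]
    rintro ⟨i, hi, hij⟩
    exact hj (e.injective hij ▸ hi)

theorem cnt_univ {R : ℕ} (v : Fin R → F) (y : F) :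
    cnt v univ y = (Nat.card {x : Fin R → Bool // ∑ r, (if x r then v r else 0) = y} : ℝ) := by
  classical
  unfold cnt
  rw [Nat.card_eq_fintype_card, Fintype.card_subtype, Finset.card_filter]
  push_cast
  refine Finset.sum_bij' (fun T _ => fun r => decide (r ∈ T))
    (fun x _ => univ.filter fun r => x r = true) ?_ ?_ ?_ ?_ ?_
  · intro T _; exact mem_univ _
  · intro x _; exact mem_powerset.2 (subset_univ _)
  · intro T _; ext r; simp
  · intro x _; funext r; simp
  · intro T _
    have h1 : ∑ r, (if (decide (r ∈ T)) = true then v r else 0) = ∑ i ∈ T, v i := by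
      rw [← Finset.sum_filter]
      congr 1
      ext r
      simp
    rw [h1]

theorem sum_comp_fib {Ω : Type} [Fintype Ω] (X : Ω → F) (g : F → ℝ) :
    ∑ x, g (X x) = ∑ᶠ y, (Nat.card {x : Ω // X x = y} : ℝ) * g y := by
  classical
  rw [Finset.sum_comp g X]
  symm
  rw [finsum_eq_sum_of_support_subset _ (s := univ.image X)]
  · refine Finset.sum_congr rfl fun y _ => ?_
    rw [Nat.card_eq_fintype_card, Fintype.card_subtype, nsmul_eq_mul]
  · intro y hy
    by_contra h
    apply hy
    have h1 : Nat.card {x : Ω // X x = y} = 0 := by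
      rw [Nat.card_eq_fintype_card, Fintype.card_eq_zero_iff]
      refine ⟨fun x => h ?_⟩
      rw [Finset.mem_coe, Finset.mem_image]
      exact ⟨x.1, mem_univ _, x.2⟩
    show _ * _ = (0 : ℝ)
    rw [h1, Nat.cast_zero, zero_mul]

theorem Lam_univ {R : ℕ} (v : Fin R → F) : Lam (cnt v univ) = LF v := by
  classical
  unfold Lam LF
  rw [finsum_congr (fun y => by rw [cnt_univ v y])]
  exact (sum_comp_fib (fun x : Fin R → Bool => ∑ r, (if x r then v r else 0))
    (fun y => Real.log (Nat.card {x : Fin R → Bool // ∑ r, (if x r then v r else 0) = y}))).symm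

theorem ff_graph {A : Type} [DecidableEq A] {R : ℕ} (a : Fin R × A → F) (s : Fin R → A) :
    ff a (univ.image fun r : Fin R => (r, s r)) = hF (fun r => a (r, s r)) := by
  let e : Fin R ↪ Fin R × A := ⟨fun r => (r, s r), fun r r' h => congrArg Prod.fst h⟩
  have h1 : (univ.image fun r : Fin R => (r, s r)) = univ.map e := by
    rw [Finset.map_eq_image]; rfl
  rw [h1]
  unfold ff hF
  rw [Finset.card_map, Finset.card_univ, Fintype.card_fin]
  have h2 : cnt a (univ.map e) = cnt (fun r => a (r, s r)) univ := by
    funext y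
    exact cnt_map a e univ y
  rw [h2, Lam_univ]

end bridge

section field

variable {F : Type*} [Field F]

theorem LF_smul {R : ℕ} (v : Fin R → F) {κ : F} (hκ : κ ≠ 0) : LF (fun r => v r * κ) = LF v := by
  classical
  unfold LF
  refine Finset.sum_congr rfl fun x _ => ?_
  have h1 : ∀ x : Fin R → Bool, ∑ r, (if x r then v r * κ else 0) =
      (∑ r, (if x r then v r else 0)) * κ := by
    intro x
    rw [Finset.sum_mul]
    refine Finset.sum_congr rfl fun r _ => ?_
    split_ifs
    · rfl
    · rw [zero_mul]
  have h2 : ∀ x' : Fin R → Bool, (∑ r, (if x' r then v r * κ else 0) = ∑ r, (if x r then v r * κ else 0)) ↔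
      (∑ r, (if x' r then v r else 0) = ∑ r, (if x r then v r else 0)) := by
    intro x'
    rw [h1, h1]
    exact mul_left_inj' hκ
  have h3 : Nat.card {x' : Fin R → Bool //
      ∑ r, (if x' r then v r * κ else 0) = ∑ r, (if x r then v r * κ else 0)} =
    Nat.card {x' : Fin R → Bool //
      ∑ r, (if x' r then v r else 0) = ∑ r, (if x r then v r else 0)} :=
    Nat.card_congr (Equiv.subtypeEquivRight h2)
  rw [h3]

theorem hF_smul {R : ℕ} (v : Fin R → F) {κ : F} (hκ : κ ≠ 0) : hF (fun r => v r * κ) = hF v := by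
  unfold hF
  rw [LF_smul v hκ]

/-- **noise lemma** -/
theorem noise (γ : F) {A : Type} [Fintype A] [Nonempty A] (σ : A → Fˣ) (R : ℕ) :
    (Fintype.card A : ℝ) ^ R * (hF (fun r : Fin R => γ ^ (r : ℕ)) / 2) ≤
      ∑ s : Fin R → A, hF (fun r : Fin R => γ ^ (r : ℕ) * (σ (s r) : F)) := by
  classical
  let a : Fin R × A → F := fun p => γ ^ (p.1 : ℕ) * (σ p.2 : F)
  have h1 := noise_abs (R := R) (ff a) (ff_empty a) (fun S T h => ff_mono a h)
    (fun S T e h => ff_sub a h e)
  have h2 : ∀ α : A, ff a (univ.image fun r : Fin R => (r, α)) =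
      hF (fun r : Fin R => γ ^ (r : ℕ)) := by
    intro α
    have h3 : ff a (univ.image fun r : Fin R => (r, α)) =
        hF (fun r : Fin R => γ ^ (r : ℕ) * (σ α : F)) := ff_graph a (fun _ => α)
    rw [h3]
    exact hF_smul (fun r : Fin R => γ ^ (r : ℕ)) (Units.ne_zero (σ α))
  have h3 : ∀ s : Fin R → A, ff a (univ.image fun r : Fin R => (r, s r)) =
      hF (fun r : Fin R => γ ^ (r : ℕ) * (σ (s r) : F)) := fun s => ff_graph a s
  rw [Finset.sum_congr rfl fun α _ => h2 α, Finset.sum_congr rfl fun s _ => h3 s,
    Finset.sum_const, Finset.card_univ, nsmul_eq_mul] at h1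
  have h4 : (0 : ℝ) < Fintype.card A := by exact_mod_cast Fintype.card_pos
  have h5 : (Fintype.card A : ℝ) * ((Fintype.card A : ℝ) ^ R *
      (hF (fun r : Fin R => γ ^ (r : ℕ)) / 2)) ≤ (Fintype.card A : ℝ) *
      ∑ s : Fin R → A, hF (fun r : Fin R => γ ^ (r : ℕ) * (σ (s r) : F)) := by
    nlinarith
  exact le_of_mul_le_mul_left h5 h4

end field

end Pool.Agent.K9h73.DL
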