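import Pool.Agent.N558.G3.CNT
import Pool.Agent.N499.G3.EPS
import Pool.Agent.N711.G3.ENT1
import Pool.Agent.N787.G3.ENT2
import Pool.Agent.N99.G3.ENT3
import Pool.Agent.N693.G3.PRDTRI
import Pool.Agent.K9h73.DL.Noise

/-!
# The counting theorem with entropies in place of valuations
-/

set_option autoImplicit false

namespace Pool.Agent.K9h73.DL

open Pool.Agent.N600.G3
open Finset

universe u

/-- half of the characters can be made non-trivial at the same time -/
theorem eps_gen {M : Type*} [Group M] {Γ : Type*} [CommMonoid Γ] (K : ℕ)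
    (w : Fin K → M →* Γ) (c : Fin K → M) (hc : ∀ i, w i (c i) ≠ 1) :
    ∃ ε : Fin K → Bool, K ≤ 2 * (Set.ncard {k : Fin K | w k (AA c ε) ≠ 1}) := by
  classical
  by_contra hcon
  push Not at hcon
  have h1 : ∀ k : Fin K, 2 ^ K ≤ 2 * (Finset.univ.filter
      fun ε : Fin K → Bool => w k (AA c ε) ≠ 1).card := by
    intro k
    have h2 := Finset.card_filter_add_card_filter_not (s := (Finset.univ : Finset (Fin K → Bool)))
      (fun ε : Fin K → Bool => w k (AA c ε) = 1)
    have h3 : (Finset.univ.filter fun ε : Fin K → Bool => w k (AA c ε) = 1).card ≤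
        (Finset.univ.filter fun ε : Fin K → Bool => w k (AA c ε) ≠ 1).card := by
      refine Finset.card_le_card_of_injOn (fun ε => Function.update ε k (!ε k)) ?_ ?_
      · intro ε hε
        have h4 : w k (AA c ε) = 1 := by simpa using hε
        have h5 := N499.G3.flip_ne (w k) c k (hc k) ε h4
        simpa using h5
      · intro a _ b _ hab
        funext j
        have h4 := congrFun hab j
        by_cases hj : j = k
        · subst hj
          simpa using h4
        · simpa [Function.update_of_ne hj] using h4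
    have h4 : (Finset.univ : Finset (Fin K → Bool)).card = 2 ^ K := by
      rw [Finset.card_univ]
      simp
    have h5 : (Finset.univ.filter fun ε : Fin K → Bool => ¬ w k (AA c ε) = 1) =
      (Finset.univ.filter fun ε : Fin K → Bool => w k (AA c ε) ≠ 1) := rfl
    rw [h5] at h2
    omega
  have h6 : ∑ ε : Fin K → Bool, (Finset.univ.filter fun k : Fin K => w k (AA c ε) ≠ 1).card =
      ∑ k : Fin K, (Finset.univ.filter fun ε : Fin K → Bool => w k (AA c ε) ≠ 1).card := by
    simp only [Finset.card_filter]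
    exact Finset.sum_comm
  have h7 : K * 2 ^ K ≤ 2 * ∑ k : Fin K,
      (Finset.univ.filter fun ε : Fin K → Bool => w k (AA c ε) ≠ 1).card := by
    rw [Finset.mul_sum]
    calc K * 2 ^ K = ∑ _k : Fin K, 2 ^ K := by simp
      _ ≤ _ := Finset.sum_le_sum fun k _ => h1 k
  have h8 : 2 * ∑ ε : Fin K → Bool,
      (Finset.univ.filter fun k : Fin K => w k (AA c ε) ≠ 1).card < K * 2 ^ K := by
    rw [Finset.mul_sum]
    calc ∑ ε : Fin K → Bool, 2 * (Finset.univ.filter fun k : Fin K => w k (AA c ε) ≠ 1).card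
        < ∑ _ε : Fin K → Bool, K := by
          refine Finset.sum_lt_sum_of_nonempty Finset.univ_nonempty fun ε _ => ?_
          have h9 := hcon ε
          rwa [Set.ncard_eq_toFinset_card', Set.toFinset_ofPred] at h9
      _ = K * 2 ^ K := by
          rw [Finset.sum_const, Finset.card_univ]
          simp [mul_comm]
  rw [h6] at h8
  exact absurd h7 (not_le.mpr h8)

/-- half of the characters can be made of infinite order at the same time -/
theorem eps_tors {M : Type*} [Group M] {F : Type*} [Field F] (K : ℕ)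
    (χ : Fin K → M →* Fˣ) (c : Fin K → M) (hc : ∀ i, ∀ m > 0, (χ i (c i)) ^ m ≠ 1) :
    ∃ ε : Fin K → Bool, K ≤ 2 * (Set.ncard {k : Fin K | ∀ m > 0, (χ k (AA c ε)) ^ m ≠ 1}) := by
  have key : ∀ x : Fˣ, (QuotientGroup.mk' (CommGroup.torsion Fˣ) x ≠ 1) ↔ ∀ m > 0, x ^ m ≠ 1 := by
    intro x
    rw [QuotientGroup.mk'_apply, ne_eq, QuotientGroup.eq_one_iff, CommGroup.mem_torsion,
      isOfFinOrder_iff_pow_eq_one]
    push Not
    rfl
  obtain ⟨ε, hε⟩ := eps_gen K (fun i => (QuotientGroup.mk' (CommGroup.torsion Fˣ)).comp (χ i)) c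
    (fun i => (key _).2 (hc i))
  refine ⟨ε, ?_⟩
  have h1 : {k : Fin K | ∀ m > 0, (χ k (AA c ε)) ^ m ≠ 1} =
      {k : Fin K | ((QuotientGroup.mk' (CommGroup.torsion Fˣ)).comp (χ k)) (AA c ε) ≠ 1} := by
    ext k
    exact (key _).symm
  rw [h1]
  exact hε

theorem LF_smul' {F : Type*} [Field F] {R : ℕ} (v : Fin R → F) {κ : F} (hκ : κ ≠ 0) :
    LF (fun r => κ * v r) = LF v := by
  rw [← LF_smul v hκ]
  congr 1
  funext r
  exact mul_comm _ _

theorem LF_eq {F : Type*} [AddCommGroup F] {R : ℕ} (v : Fin R → F) :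
    LF v = 2 ^ R * (R * Real.log 2 - hF v) := by
  unfold hF
  have : (2 : ℝ) ^ R ≠ 0 := by positivity
  field_simp
  ring

/-- the counting theorem -/
theorem cnt_thm (M : Type u) [Group M] (F : Type u) [Field F] (K : ℕ)
    (χ : Fin K → M →* Fˣ) (b : Fin K → M → F) (hb : ∀ k, Crossed (χ k) (b k))
    (c d : Fin K → M) (hbc : ∀ i j, b i (c j) = 0) (hbd : ∀ i j, i < j → b i (d j) = 0)
    (hdd : ∀ i, b i (d i) ≠ 0) (ε : Fin K → Bool) (R : ℕ) (g0 : Finset (Fin K))
    (hg0 : ∀ k ∈ g0, (χ k (AA c ε) : F) ≠ 1) :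
    ∑ k ∈ g0, hF (fun r : Fin R => (χ k (AA c ε) : F) ^ (r : ℕ)) / 2 ≤
      Real.log (Nat.card (Set.range fun δ : Fin R → Fin K → Bool =>
        (List.ofFn fun r => AA d (δ r) * AA c ε * (AA d (δ r))⁻¹).prod)) := by
  classical
  have h2 : S_ENT2.{u} := N787.G3.t_ent2
  have h3 : S_ENT3.{u} := N99.G3.t_ent3 N711.G3.t_ent1
  have h4 : S_PRD.{u} := N693.G3.t_prd
  have h5 : S_TRI.{u} := N693.G3.t_tri
  set U : M := AA c ε with hU
  have hbU : ∀ k, b k U = 0 := fun k => N558.G3.b_AA (hb k) c (hbc k) ε
  choose g σ hg hX using fun k => h5 M F (χ k) (b k) (hb k) K d k (hbd k)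
  let u : Fin K → F := fun k => (χ k U : F)
  let row : (Fin K → Fin R → Bool) → Fin R → Fin K → Bool := fun δ r j => δ j r
  let P : (Fin R → Fin K → Bool) → M := fun δ =>
    (List.ofFn fun r => AA d (δ r) * U * (AA d (δ r))⁻¹).prod
  let X : (Fin K → Fin R → Bool) → Fin K → F := fun δ k => b k (P (row δ))
  have hform : ∀ δ k, X δ k = (1 - u k) * ∑ r : Fin R, u k ^ (r : ℕ) *
      (g k (row δ r) + (σ k (row δ r) : F) * (if δ k r then b k (d k) else 0)) := by
    intro δ k
    show b k (List.ofFn fun r => AA d (row δ r) * U * (AA d (row δ r))⁻¹).prod = _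
    rw [h4 M F (χ k) (b k) (hb k) U (hbU k) R (fun r => AA d (row δ r))]
    congr 1
    refine Finset.sum_congr rfl fun r _ => ?_
    rw [hX]
  -- coefficients of the random sum in direction `k`
  let vv : (Fin K → Fin R → Bool) → Fin K → Fin R → F := fun δ k r =>
    ((1 - u k) * b k (d k)) * (u k ^ (r : ℕ) * (σ k (row δ r) : F))
  have hvupd : ∀ δ k x, vv (Function.update δ k x) k = vv δ k := by
    intro δ k x
    funext r
    have e := hg k (row (Function.update δ k x) r) (row δ r) (fun i hi => by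
      show Function.update δ k x i r = δ i r
      rw [Function.update_of_ne hi.ne])
    show ((1 - u k) * b k (d k)) * (u k ^ (r : ℕ) * (σ k (row (Function.update δ k x) r) : F)) = _
    rw [e.2]
  have hupd : ∀ δ k x, X (Function.update δ k x) k =
      (1 - u k) * ∑ r : Fin R, u k ^ (r : ℕ) * g k (row δ r) +
      ∑ r : Fin R, (if x r then vv δ k r else 0) := by
    intro δ k x
    rw [hform, Finset.mul_sum, Finset.mul_sum, ← Finset.sum_add_distrib]
    refine Finset.sum_congr rfl fun r _ => ?_
    have e := hg k (row (Function.update δ k x) r) (row δ r) (fun i hi => by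
      show Function.update δ k x i r = δ i r
      rw [Function.update_of_ne hi.ne])
    rw [e.1, e.2, Function.update_self]
    show _ = _ + (if x r = true then ((1 - u k) * b k (d k)) *
      (u k ^ (r : ℕ) * (σ k (row δ r) : F)) else 0)
    split_ifs
    · ring
    · ring
  have hdep : ∀ k δ δ', (∀ i ≤ k, δ i = δ' i) → X δ k = X δ' k := by
    intro k δ δ' h
    rw [hform, hform]
    congr 1
    refine Finset.sum_congr rfl fun r _ => ?_
    have e := hg k (row δ r) (row δ' r) (fun i hi => congrFun (h i hi.le) r)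
    rw [e.1, e.2, congrFun (h k le_rfl) r]
  -- fibres
  let hh' : Fin K → (Fin K → Fin R → Bool) → (Fin R → Bool) → ℝ := fun k δ x =>
    Real.log (Nat.card {x' : Fin R → Bool //
      ∑ r, (if x' r then vv δ k r else 0) = ∑ r, (if x r then vv δ k r else 0)})
  have hfib : ∀ δ k, Real.log (Nat.card {x : Fin R → Bool //
      X (Function.update δ k x) k = X δ k}) = hh' k δ (δ k) := by
    intro δ k
    have h6 : ∀ x : Fin R → Bool, X (Function.update δ k x) k = X δ k ↔
        ∑ r, (if x r then vv δ k r else 0) = ∑ r, (if δ k r then vv δ k r else 0) := by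
      intro x
      have h7 := hupd δ k (δ k)
      rw [Function.update_eq_self] at h7
      rw [hupd, h7]
      exact add_right_inj _
    show _ = Real.log (Nat.card {x' : Fin R → Bool //
      ∑ r, (if x' r then vv δ k r else 0) = ∑ r, (if δ k r then vv δ k r else 0)})
    rw [Nat.card_congr (Equiv.subtypeEquivRight h6)]
  have hp : (0 : ℝ) < 2 ^ R := by positivity
  have hB : (Fintype.card (Fin R → Bool) : ℝ) = 2 ^ R := by simp
  have hΩ : (Fintype.card (Fin K → Fin R → Bool) : ℝ) = 2 ^ (K * R) := by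
    rw [Fintype.card_fun, Fintype.card_fun, Fintype.card_bool, Fintype.card_fin, Fintype.card_fin]
    push_cast
    rw [← pow_mul, mul_comm]
  have hA : (Fintype.card (Fin K → Bool) : ℝ) ^ R = 2 ^ (K * R) := by
    rw [Fintype.card_fun, Fintype.card_bool, Fintype.card_fin]
    push_cast
    rw [← pow_mul]
  have hpΩ : (0 : ℝ) < 2 ^ (K * R) := by positivity
  -- the bound for the good directions
  have hgood : ∀ k ∈ g0, ∑ δ : Fin K → Fin R → Bool, Real.log (Nat.card {x : Fin R → Bool //
      X (Function.update δ k x) k = X δ k}) ≤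
      2 ^ (K * R) * (R * Real.log 2 - hF (fun r : Fin R => u k ^ (r : ℕ)) / 2) := by
    intro k hk
    have hu1 : 1 - u k ≠ 0 := by
      intro h
      exact hg0 k hk (sub_eq_zero.1 h).symm
    have hκ : (1 - u k) * b k (d k) ≠ 0 := mul_ne_zero hu1 (hdd k)
    rw [Finset.sum_congr rfl fun δ _ => hfib δ k]
    have h6 := swap_sum k (hh' k) (by
      intro δ x y
      show Real.log (Nat.card {x' : Fin R → Bool //
        ∑ r, (if x' r then vv (Function.update δ k y) k r else 0) =
          ∑ r, (if x r then vv (Function.update δ k y) k r else 0)}) = _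
      rw [hvupd])
    rw [hB] at h6
    have h7 : ∀ δ : Fin K → Fin R → Bool, ∑ x, hh' k δ x =
        2 ^ R * (R * Real.log 2 - hF (fun r : Fin R => u k ^ (r : ℕ) * (σ k (row δ r) : F))) := by
      intro δ
      have h8 : ∑ x, hh' k δ x = LF (vv δ k) := rfl
      rw [h8, ← LF_eq]
      exact LF_smul' (fun r : Fin R => u k ^ (r : ℕ) * (σ k (row δ r) : F)) hκ
    rw [Finset.sum_congr rfl fun δ _ => h7 δ, ← Finset.mul_sum] at h6
    have h8 := mul_left_cancel₀ hp.ne' h6
    rw [h8, Finset.sum_sub_distrib, Finset.sum_const, Finset.card_univ, nsmul_eq_mul, hΩ]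
    have h9 := noise (u k) (A := Fin K → Bool) (fun x => σ k x) R
    rw [hA] at h9
    have h10 : ∑ s : Fin R → Fin K → Bool, hF (fun r : Fin R => u k ^ (r : ℕ) * (σ k (s r) : F)) =
        ∑ δ : Fin K → Fin R → Bool,
          hF (fun r : Fin R => u k ^ (r : ℕ) * (σ k (row δ r) : F)) := by
      refine (Fintype.sum_equiv (Equiv.piComm fun (_ : Fin K) (_ : Fin R) => Bool) _ _
        fun δ => ?_).symm
      rfl
    rw [h10] at h9
    linarith
  -- trivial bound
  have htriv : ∀ k, ∑ δ : Fin K → Fin R → Bool, Real.log (Nat.card {x : Fin R → Bool //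
      X (Function.update δ k x) k = X δ k}) ≤ 2 ^ (K * R) * (R * Real.log 2) := by
    intro k
    have h6 : ∀ δ : Fin K → Fin R → Bool, Real.log (Nat.card {x : Fin R → Bool //
        X (Function.update δ k x) k = X δ k}) ≤ R * Real.log 2 := by
      intro δ
      have h7 : Nat.card {x : Fin R → Bool // X (Function.update δ k x) k = X δ k} ≤ 2 ^ R := by
        refine (Nat.card_le_card_of_injective _ Subtype.val_injective).trans (le_of_eq ?_)
        simp
      rcases Nat.eq_zero_or_pos
        (Nat.card {x : Fin R → Bool // X (Function.update δ k x) k = X δ k}) with h8 | h8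
      · rw [h8, Nat.cast_zero, Real.log_zero]
        have := Real.log_nonneg (by norm_num : (1 : ℝ) ≤ 2)
        positivity
      · rw [← Real.log_pow]
        apply Real.log_le_log (by exact_mod_cast h8)
        exact_mod_cast h7
    refine (Finset.sum_le_sum fun δ _ => h6 δ).trans (le_of_eq ?_)
    rw [Finset.sum_const, Finset.card_univ, nsmul_eq_mul, hΩ]
  have hE2 := h2 (Fin K → Fin R → Bool) (Fin K → F) X
  have hE3 := h3 K (Fin R → Bool) F X hdep
  have hsum : ∑ δ : Fin K → Fin R → Bool, ∑ k, Real.log (Nat.card {x : Fin R → Bool //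
      X (Function.update δ k x) k = X δ k}) ≤
      2 ^ (K * R) * (K * R * Real.log 2 - ∑ k ∈ g0, hF (fun r : Fin R => u k ^ (r : ℕ)) / 2) := by
    rw [Finset.sum_comm]
    have h6 : ∀ k, ∑ δ : Fin K → Fin R → Bool, Real.log (Nat.card {x : Fin R → Bool //
        X (Function.update δ k x) k = X δ k}) ≤ 2 ^ (K * R) * (R * Real.log 2 -
          if k ∈ g0 then hF (fun r : Fin R => u k ^ (r : ℕ)) / 2 else 0) := by
      intro k
      split_ifs with hk
      · exact hgood k hk
      · rw [sub_zero]; exact htriv k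
    refine (Finset.sum_le_sum fun k _ => h6 k).trans (le_of_eq ?_)
    rw [← Finset.mul_sum, Finset.sum_sub_distrib, Finset.sum_const, Finset.card_univ,
      Fintype.card_fin, nsmul_eq_mul, Finset.sum_ite_mem, Finset.univ_inter]
    ring
  have hE := hE2.trans (hE3.trans hsum)
  rw [hΩ, Real.log_pow] at hE
  have h6 := le_of_mul_le_mul_left hE hpΩ
  push_cast at h6
  have h7 : ∑ k ∈ g0, hF (fun r : Fin R => u k ^ (r : ℕ)) / 2 ≤
      Real.log (Nat.card (Set.range X)) := by linarith
  refine h7.trans ?_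
  have hNpos : 0 < Nat.card (Set.range X) := by
    rw [Nat.card_coe_set_eq]
    exact (Set.ncard_pos (Set.finite_range X)).2 (Set.range_nonempty X)
  apply Real.log_le_log (by exact_mod_cast hNpos)
  have hsub : Set.range X ⊆ (fun y : M => fun k => b k y) '' Set.range P := by
    rintro _ ⟨δ, rfl⟩
    exact ⟨P (row δ), ⟨row δ, rfl⟩, rfl⟩
  have hPfin : (Set.range P).Finite := Set.finite_range P
  have h8 : Nat.card (Set.range X) ≤ Nat.card (Set.range P) := by
    rw [Nat.card_coe_set_eq, Nat.card_coe_set_eq]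
    exact (Set.ncard_le_ncard hsub (hPfin.image _)).trans (Set.ncard_image_le hPfin)
  exact_mod_cast h8

end Pool.Agent.K9h73.DL
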