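import Pool.Agent.N600.G3.Tha
import Pool.Agent.TH555.FG.Noeth
import Pool.Agent.N918.G3.GEO
import Pool.Agent.N454.G3.LEN
import Pool.Agent.K9h73.DL.Cnt

/-!
# Growth from a crossed homomorphism
-/

set_option autoImplicit false

namespace Pool.Agent.K9h73.DL

open Pool.Agent.N600.G3
open Finset
open scoped Pointwise

universe u

theorem LF_map {F F' : Type*} [Field F] [Field F'] (τ : F →+* F') {R : ℕ} (v : Fin R → F) :
    LF (fun r => τ (v r)) = LF v := by
  unfold LF
  refine Finset.sum_congr rfl fun x _ => ?_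
  have h1 : ∀ x : Fin R → Bool, ∑ r, (if x r then τ (v r) else 0) =
      τ (∑ r, (if x r then v r else 0)) := by
    intro x
    rw [map_sum]
    refine Finset.sum_congr rfl fun r _ => ?_
    split_ifs
    · rfl
    · rw [map_zero]
  have h2 : ∀ x' : Fin R → Bool,
      (∑ r, (if x' r then τ (v r) else 0) = ∑ r, (if x r then τ (v r) else 0)) ↔
      (∑ r, (if x' r then v r else 0) = ∑ r, (if x r then v r else 0)) := by
    intro x'
    rw [h1, h1]
    exact τ.injective.eq_iff
  have h3 : Nat.card {x' : Fin R → Bool //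
      ∑ r, (if x' r then τ (v r) else 0) = ∑ r, (if x r then τ (v r) else 0)} =
    Nat.card {x' : Fin R → Bool //
      ∑ r, (if x' r then v r else 0) = ∑ r, (if x r then v r else 0)} :=
    Nat.card_congr (Equiv.subtypeEquivRight h2)
  rw [h3]

theorem hF_map {F F' : Type*} [Field F] [Field F'] (τ : F →+* F') {R : ℕ} (x : F) :
    hF (fun r : Fin R => (τ x) ^ (r : ℕ)) = hF (fun r : Fin R => x ^ (r : ℕ)) := by
  have h1 : (fun r : Fin R => (τ x) ^ (r : ℕ)) = fun r : Fin R => τ (x ^ (r : ℕ)) := by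
    funext r
    rw [map_pow]
  rw [h1]
  unfold hF
  rw [LF_map]

/-- growth from a crossed homomorphism -/
theorem tha (G : Type u) [Group G] (T : Set G) (hfin : T.Finite) (h1T : 1 ∈ T) (hinv : T⁻¹ = T)
    (hgen : Subgroup.closure T = ⊤) (F : Type u) [Field F]
    (χ : commutator G →* Fˣ) (b : commutator G → F) (hb : Crossed χ b)
    (c : commutator G) (hc : (c : G) ∈ CT T) (hbc : b c = 0) (hχ : ∀ m > 0, (χ c) ^ m ≠ 1)
    (hne : ∃ m, b m ≠ 0) :
    ∃ (K : ℕ) (t : Fin K → commutator G) (g0 : Finset (Fin K)), 0 < K ∧ K ≤ 2 * g0.card ∧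
      (∀ k ∈ g0, ∀ m > 0, (χ (t k)) ^ m ≠ 1) ∧
      ∀ R : ℕ, ∑ k ∈ g0, hF (fun r : Fin R => (χ (t k) : F) ^ (r : ℕ)) / 2 ≤
        K * Real.log (Nat.card ↥(T ^ (22 * R))) := by
  classical
  obtain ⟨K, s, d, hK, hs, hd, hi, hii, hiii⟩ :=
    N918.G3.t_geo G T h1T hinv hgen F χ b hb c hc hbc hne
  let g : Fin K → G := fun i => (hh s (K - 1 - i))⁻¹
  let χ' : Fin K → commutator G →* Fˣ := fun i => χ.comp (cj (g i))
  let b' : Fin K → commutator G → F := fun i m => b (cj (g i) m)
  let c' : Fin K → commutator G := fun j => cj (hh s (K - 1 - j)) c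
  let d' : Fin K → commutator G := fun j => cj (hh s (K + (K - 1 - j))) d
  have hb' : ∀ k, Crossed (χ' k) (b' k) := by
    intro k m m'
    show b (cj (g k) (m * m')) = b (cj (g k) m) + (χ (cj (g k) m) : F) * b (cj (g k) m')
    rw [map_mul, hb]
  have e1 : ∀ i j, b' i (c' j) = 0 := by
    intro i j
    show b (cj (g i) (cj (hh s (K - 1 - j)) c)) = 0
    rw [cj_cj]
    exact hi _ (by omega) _ (by omega)
  have e2 : ∀ i j, i < j → b' i (d' j) = 0 := by
    intro i j hij
    show b (cj (g i) (cj (hh s (K + (K - 1 - j))) d)) = 0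
    rw [cj_cj]
    have : (i : ℕ) < j := hij
    exact hii _ _ (by omega) (by omega)
  have e3 : ∀ i, b' i (d' i) ≠ 0 := by
    intro i
    show b (cj (g i) (cj (hh s (K + (K - 1 - i))) d)) ≠ 0
    rw [cj_cj]
    exact hiii _ (by omega)
  have e4 : ∀ i, ∀ m > 0, (χ' i (c' i)) ^ m ≠ 1 := by
    intro i m hm
    show (χ (cj (g i) (cj (hh s (K - 1 - i)) c))) ^ m ≠ 1
    rw [cj_cj]
    have : g i * hh s (K - 1 - i) = 1 := inv_mul_cancel _
    rw [this, cj_one]
    exact hχ m hm
  obtain ⟨ε, hε⟩ := eps_tors K χ' c' e4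
  obtain ⟨hL1, hL2⟩ := N454.G3.t_len G T h1T hinv s hs c d hc hd K hK
  have hgood : {k : Fin K | ∀ m > 0, (χ' k (AA c' ε)) ^ m ≠ 1}.Finite := Set.toFinite _
  refine ⟨K, fun k => cj (g k) (AA c' ε), hgood.toFinset, hK, ?_, ?_, ?_⟩
  · rw [Set.ncard_eq_toFinset_card _ hgood] at hε
    exact hε
  · intro k hk
    have := (Set.Finite.mem_toFinset hgood).1 hk
    exact this
  intro R
  have hcnt := cnt_thm (commutator G) F K χ' b' hb' c' d' e1 e2 e3 ε R hgood.toFinset (by
    intro k hk h1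
    have h2 := (Set.Finite.mem_toFinset hgood).1 hk
    apply h2 1 Nat.one_pos
    rw [pow_one]
    exact Units.ext h1)
  refine hcnt.trans ?_
  have hmem : ∀ δ : Fin R → Fin K → Bool,
      ((((List.ofFn fun r => AA d' (δ r) * AA c' ε * (AA d' (δ r))⁻¹).prod :
        commutator G)) : G) ∈ T ^ (22 * K * R) := by
    intro δ
    have h5 : ((((List.ofFn fun r => AA d' (δ r) * AA c' ε * (AA d' (δ r))⁻¹).prod :
        commutator G)) : G) = (List.ofFn fun r => (((AA d' (δ r) * AA c' ε * (AA d' (δ r))⁻¹ :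
          commutator G)) : G)).prod := by
      have := map_list_prod (commutator G).subtype
        (List.ofFn fun r => AA d' (δ r) * AA c' ε * (AA d' (δ r))⁻¹)
      rw [List.map_ofFn] at this
      exact this
    rw [h5]
    apply prod_mem_pow
    intro r
    have h6 : ((AA d' (δ r) : commutator G) : G) ∈ T ^ (8 * K) := by
      have := AA_map (commutator G).subtype d' (δ r)
      show (commutator G).subtype _ ∈ _
      rw [this]
      exact hL2 (δ r)
    have h7 : ((AA c' ε : commutator G) : G) ∈ T ^ (6 * K) := by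
      have := AA_map (commutator G).subtype c' ε
      show (commutator G).subtype _ ∈ _
      rw [this]
      exact hL1 ε
    have h8 : T ^ (22 * K) = T ^ (8 * K) * T ^ (6 * K) * T ^ (8 * K) := by
      rw [← pow_add, ← pow_add]; congr 1; omega
    rw [h8]
    exact Set.mul_mem_mul (Set.mul_mem_mul h6 h7) (inv_mem_pow hinv h6)
  have hfinT : Finite ↥(T ^ (22 * K * R)) := (finite_pow hfin _).to_subtype
  have h9 : Nat.card (Set.range fun δ : Fin R → Fin K → Bool =>
      (List.ofFn fun r => AA d' (δ r) * AA c' ε * (AA d' (δ r))⁻¹).prod) ≤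
      Nat.card ↥(T ^ (22 * K * R)) := by
    refine Nat.card_le_card_of_injective
      (fun x : Set.range _ => (⟨((x : commutator G) : G), ?_⟩ : ↥(T ^ (22 * K * R)))) ?_
    · obtain ⟨_, δ, rfl⟩ := x
      exact hmem δ
    · intro x y hxy
      have h9 := congrArg (fun z : ↥(T ^ (22 * K * R)) => (z : G)) hxy
      exact Subtype.ext (Subtype.ext h9)
  have h10 : Nat.card ↥(T ^ (22 * K * R)) ≤ (Nat.card ↥(T ^ (22 * R))) ^ K := by
    have h11 : 22 * K * R = K * (22 * R) := by ring
    rw [h11]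
    exact Pool.Agent.TH555.FG.card_pow_mul T K (22 * R)
  have h12 : 0 < Nat.card (Set.range fun δ : Fin R → Fin K → Bool =>
      (List.ofFn fun r => AA d' (δ r) * AA c' ε * (AA d' (δ r))⁻¹).prod) := by
    rw [Nat.card_coe_set_eq]
    exact (Set.ncard_pos (Set.finite_range _)).2 (Set.range_nonempty _)
  rw [← Real.log_pow]
  apply Real.log_le_log (by exact_mod_cast h12)
  exact_mod_cast h9.trans h10

end Pool.Agent.K9h73.DL
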