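import Pool.Agent.N600.G3.Red
import Pool.Agent.K9h73.DL.Tha
import Pool.Agent.K9h73.DL.Alg

/-!
# The polycyclic case of derived length three
-/

set_option autoImplicit false

namespace Pool.Agent.K9h73.DL

open Pool.Agent.N600.G3
open scoped Pointwise commutatorElement
open Subgroup

universe u

lemma fin_iff {M : Type*} [Monoid M] (x : M) : ¬ IsOfFinOrder x ↔ ∀ k > 0, x ^ k ≠ 1 := by
  rw [isOfFinOrder_iff_pow_eq_one]
  push Not
  rfl

theorem red (G : Type u) [Group G] (T : Set G) (hfin : T.Finite) (h1T : 1 ∈ T)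
    (hinv : T⁻¹ = T) (hgen : closure T = ⊤) (hFG : (commutator G).FG)
    (habel : ∀ x ∈ commutator (commutator G), ∀ y ∈ commutator (commutator G), x * y = y * x)
    (hN : (commutator (commutator G)).FG) :
    (∃ L : Subgroup (commutator G), L.Normal ∧ L.FiniteIndex ∧ commutator (commutator G) ≤ L ∧
      Group.IsNilpotent L) ∨
    ∃ (χ : commutator G →* ℂˣ) (f : commutator G → ℂ) (K : ℕ) (t : Fin K → commutator G)
      (g0 : Finset (Fin K)),
      (∀ x ∈ commutator (commutator G), ∀ y ∈ commutator (commutator G),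
        f (x * y) = f x + f y) ∧
      (∀ m, ∀ x ∈ commutator (commutator G), f (m * x * m⁻¹) = (χ m : ℂ) * f x) ∧
      (∃ x ∈ commutator (commutator G), f x ≠ 0) ∧
      (∀ m, IsIntegral ℤ (χ m : ℂ)) ∧
      0 < K ∧ K ≤ 2 * g0.card ∧ (∀ k ∈ g0, ∀ m > 0, (χ (t k) : ℂ) ^ m ≠ 1) ∧
      ∀ R : ℕ, ∑ k ∈ g0, hF (fun r : Fin R => (χ (t k) : ℂ) ^ (r : ℕ)) / 2 ≤
        K * Real.log (Nat.card ↥(T ^ (22 * R))) := by
  have : Group.FG (commutator G) := (Group.fg_iff_subgroup_fg _).2 hFG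
  rcases alg_char (commutator G) habel hN with h | ⟨F, iF, τ, χ, f, hf1, hf2, ⟨x0, hx0, hfx0⟩,
    ⟨m0, hm0⟩, hint⟩
  · exact Or.inl h
  right
  -- a short commutator
  have hex : ∃ (g : G) (c : commutator G), (c : G) ∈ CT T ∧ ¬ IsOfFinOrder (χ (cj g c)) := by
    by_contra hcon
    push Not at hcon
    let Q : Subgroup G :=
      { carrier := {x | ∃ hx : x ∈ commutator G, ∀ g : G, IsOfFinOrder (χ (cj g ⟨x, hx⟩))}
        mul_mem' := by
          rintro a b ⟨ha, ha'⟩ ⟨hb, hb'⟩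
          refine ⟨mul_mem ha hb, fun g => ?_⟩
          have : (⟨a * b, mul_mem ha hb⟩ : commutator G) = ⟨a, ha⟩ * ⟨b, hb⟩ := rfl
          rw [this, map_mul, map_mul]
          exact (ha' g).mul (hb' g)
        one_mem' := by
          refine ⟨one_mem _, fun g => ?_⟩
          have : (⟨1, one_mem _⟩ : commutator G) = 1 := rfl
          rw [this, map_one, map_one]
          exact IsOfFinOrder.one
        inv_mem' := by
          rintro a ⟨ha, ha'⟩
          refine ⟨inv_mem ha, fun g => ?_⟩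
          have : (⟨a⁻¹, inv_mem ha⟩ : commutator G) = (⟨a, ha⟩ : commutator G)⁻¹ := rfl
          rw [this, map_inv, map_inv]
          exact (ha' g).inv }
    have hQn : Q.Normal := by
      refine ⟨?_⟩
      rintro a ⟨ha, ha'⟩ h
      refine ⟨(commutator_normal ⊤ ⊤).conj_mem a ha h, fun g => ?_⟩
      have e : (⟨h * a * h⁻¹, (commutator_normal ⊤ ⊤).conj_mem a ha h⟩ : commutator G) =
          cj h ⟨a, ha⟩ := rfl
      rw [e, cj_cj]
      exact ha' (g * h)
    have hle : commutator G ≤ Q := by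
      refine (comm_le hgen).trans (normalClosure_le_normal ?_)
      intro x hx
      exact ⟨CT_sub T hx, fun g => hcon g ⟨x, CT_sub T hx⟩ hx⟩
    obtain ⟨hm, hm'⟩ := hle m0.2
    have h1 := hm' 1
    rw [cj_one] at h1
    exact (fin_iff _).2 hm0 h1
  obtain ⟨g, c, hc, hvc⟩ := hex
  let χ' : commutator G →* Fˣ := χ.comp (cj g)
  let f' : commutator G → F := fun x => f (cj g x)
  have hf1' : ∀ x ∈ commutator (commutator G), ∀ y ∈ commutator (commutator G),
      f' (x * y) = f' x + f' y := by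
    intro x hx y hy
    show f (cj g (x * y)) = _
    rw [map_mul, hf1 _ (cj_comm_mem g hx) _ (cj_comm_mem g hy)]
  have hf2' : ∀ m, ∀ x ∈ commutator (commutator G), f' (m * x * m⁻¹) = (χ' m : F) * f' x := by
    intro m x hx
    show f (cj g (m * x * m⁻¹)) = _
    rw [map_mul, map_mul, map_inv, hf2 _ _ (cj_comm_mem g hx)]
    rfl
  have hcm : ∀ m, c * m * c⁻¹ * m⁻¹ ∈ commutator (commutator G) := fun m =>
    commutator_mem_commutator (mem_top c) (mem_top m)
  have hcr : Crossed χ' (fun m => f' (c * m * c⁻¹ * m⁻¹)) := by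
    intro m m'
    have e : c * (m * m') * c⁻¹ * (m * m')⁻¹ =
        (c * m * c⁻¹ * m⁻¹) * (m * (c * m' * c⁻¹ * m'⁻¹) * m⁻¹) := by group
    show f' (c * (m * m') * c⁻¹ * (m * m')⁻¹) = _
    rw [e, hf1' _ (hcm m) _ (Normal.conj_mem inferInstance _ (hcm m') m), hf2' _ _ (hcm m')]
  have h1x : cj g⁻¹ x0 ∈ commutator (commutator G) := cj_comm_mem _ hx0
  have h2x : f' (cj g⁻¹ x0) = f x0 := by
    show f (cj g (cj g⁻¹ x0)) = _
    rw [cj_cj, mul_inv_cancel, cj_one]
  have hχc : ∀ m > 0, (χ' c) ^ m ≠ 1 := (fin_iff _).1 hvc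
  obtain ⟨K, t, g0, hK, hKg, htg, hR⟩ := tha G T hfin h1T hinv hgen F χ'
    (fun m => f' (c * m * c⁻¹ * m⁻¹)) hcr c hc (by
      show f' (c * c * c⁻¹ * c⁻¹) = 0
      have e : c * c * c⁻¹ * c⁻¹ = 1 := by group
      rw [e]
      show f (cj g 1) = 0
      rw [map_one]
      exact f_one hf1) hχc (by
      refine ⟨cj g⁻¹ x0, ?_⟩
      show f' (c * cj g⁻¹ x0 * c⁻¹ * (cj g⁻¹ x0)⁻¹) ≠ 0
      rw [hf1' _ (Normal.conj_mem inferInstance _ h1x c) _ (inv_mem h1x), hf2' _ _ h1x]
      have h3 : f' ((cj g⁻¹ x0)⁻¹) = - f' (cj g⁻¹ x0) := by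
        have h4 := hf1' _ h1x _ (inv_mem h1x)
        rw [mul_inv_cancel] at h4
        have h5 : f' 1 = 0 := by
          show f (cj g 1) = 0
          rw [map_one]
          exact f_one hf1
        rw [h5] at h4
        exact (eq_neg_of_add_eq_zero_right h4.symm)
      rw [h3, h2x]
      have h6 : (χ' c : F) * f x0 + -f x0 = ((χ' c : F) - 1) * f x0 := by ring
      rw [h6]
      refine mul_ne_zero (sub_ne_zero.2 ?_) hfx0
      intro h7
      apply hχc 1 Nat.one_pos
      rw [pow_one]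
      exact Units.ext h7)
  refine ⟨(Units.map (τ : F →* ℂ)).comp χ', fun x => τ (f' x), K, t, g0, ?_, ?_, ?_, ?_, hK, hKg,
    ?_, ?_⟩
  · intro x hx y hy
    show τ (f' (x * y)) = τ (f' x) + τ (f' y)
    rw [hf1' x hx y hy, map_add]
  · intro m x hx
    show τ (f' (m * x * m⁻¹)) = τ (χ' m : F) * τ (f' x)
    rw [hf2' m x hx, map_mul]
  · refine ⟨cj g⁻¹ x0, h1x, ?_⟩
    show τ (f' (cj g⁻¹ x0)) ≠ 0
    rw [h2x]
    exact (map_ne_zero τ).2 hfx0
  · intro m
    exact hint (cj g m)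
  · intro k hk m hm h
    apply htg k hk m hm
    apply Units.ext
    apply τ.injective
    have h1 : τ (χ' (t k) : F) ^ m = 1 := h
    rw [Units.val_pow_eq_pow_val, map_pow, h1, Units.val_one, map_one]
  · intro R
    refine le_trans (le_of_eq ?_) (hR R)
    refine Finset.sum_congr rfl fun k _ => ?_
    have h1 := hF_map τ (R := R) (χ' (t k) : F)
    show hF (fun r : Fin R => (τ (χ' (t k) : F)) ^ (r : ℕ)) / 2 = _
    rw [h1]

end Pool.Agent.K9h73.DL
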