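import Pool.Agent.W963.GE.Dob
import Pool.Agent.K9h73.DL.Noise

/-!
# Entropy of the random sums `∑ x_r γ ^ r`
-/

set_option autoImplicit false

namespace Pool.Agent.K9h73.DL

open Finset Polynomial
open Pool.Agent.W963.GE

theorem sum_log_le {Ω : Type} [Fintype Ω] [Nonempty Ω] (m : Ω → ℝ) (hm : ∀ x, 0 < m x) :
    ∑ x, Real.log (m x) ≤ (Fintype.card Ω : ℝ) *
      (Real.log (∑ x, m x) - Real.log (Fintype.card Ω)) := by
  have hN : (0 : ℝ) < Fintype.card Ω := by exact_mod_cast Fintype.card_pos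
  have hC : 0 < ∑ x, m x := Finset.sum_pos (fun x _ => hm x) Finset.univ_nonempty
  set N : ℝ := (Fintype.card Ω : ℝ) with hNdef
  set C : ℝ := ∑ x, m x with hCdef
  have h1 : ∀ x, Real.log (m x) ≤ (Real.log C - Real.log N) + (m x * N / C - 1) := by
    intro x
    have h2 := Real.log_le_sub_one_of_pos (show 0 < m x * N / C by have := hm x; positivity)
    rw [Real.log_div (by have := hm x; positivity) hC.ne', Real.log_mul (hm x).ne' hN.ne'] at h2
    linarith
  calc ∑ x, Real.log (m x) ≤ ∑ x, ((Real.log C - Real.log N) + (m x * N / C - 1)) :=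
        Finset.sum_le_sum fun x _ => h1 x
    _ = N * (Real.log C - Real.log N) + ((∑ x, m x) * N / C - N) := by
        rw [Finset.sum_add_distrib, Finset.sum_const, Finset.card_univ, nsmul_eq_mul,
          Finset.sum_sub_distrib, Finset.sum_const, Finset.card_univ, nsmul_eq_mul, mul_one,
          ← Finset.sum_div, ← Finset.sum_mul]
    _ = N * (Real.log C - Real.log N) := by
        rw [← hCdef]
        field_simp
        ring

theorem fib_pos {F : Type*} [AddCommGroup F] {R : ℕ} (v : Fin R → F) (x : Fin R → Bool) :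
    0 < Nat.card {x' : Fin R → Bool //
      ∑ r, (if x' r then v r else 0) = ∑ r, (if x r then v r else 0)} := by
  have : Nonempty {x' : Fin R → Bool //
      ∑ r, (if x' r then v r else 0) = ∑ r, (if x r then v r else 0)} := ⟨⟨x, rfl⟩⟩
  exact Nat.card_pos

theorem hF_ge {F : Type*} [AddCommGroup F] {R : ℕ} (v : Fin R → F) (C : ℝ)
    (hC : ∑ x : Fin R → Bool, (Nat.card {x' : Fin R → Bool //
      ∑ r, (if x' r then v r else 0) = ∑ r, (if x r then v r else 0)} : ℝ) ≤ C) :
    2 * (R * Real.log 2) - Real.log C ≤ hF v := by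
  have h1 := sum_log_le (fun x : Fin R → Bool => (Nat.card {x' : Fin R → Bool //
      ∑ r, (if x' r then v r else 0) = ∑ r, (if x r then v r else 0)} : ℝ))
      (fun x => by exact_mod_cast fib_pos v x)
  have hcard : (Fintype.card (Fin R → Bool) : ℝ) = 2 ^ R := by simp
  rw [hcard, Real.log_pow] at h1
  have hpos : (0 : ℝ) < ∑ x : Fin R → Bool, (Nat.card {x' : Fin R → Bool //
      ∑ r, (if x' r then v r else 0) = ∑ r, (if x r then v r else 0)} : ℝ) :=
    Finset.sum_pos (fun x _ => by exact_mod_cast fib_pos v x) Finset.univ_nonempty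
  have h2 := Real.log_le_log hpos hC
  have h3 : (0 : ℝ) < 2 ^ R := by positivity
  have h4 : LF v ≤ 2 ^ R * (Real.log C - R * Real.log 2) := by
    unfold LF
    exact h1.trans (mul_le_mul_of_nonneg_left (by linarith) h3.le)
  unfold hF
  have h5 : LF v / 2 ^ R ≤ Real.log C - R * Real.log 2 := by
    rw [div_le_iff₀ h3]; linarith
  linarith

theorem hF_inj {F : Type*} [AddCommGroup F] {R : ℕ} (v : Fin R → F)
    (h : Function.Injective fun x : Fin R → Bool => ∑ r, (if x r then v r else 0)) :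
    hF v = R * Real.log 2 := by
  unfold hF LF
  have h1 : ∀ x : Fin R → Bool, Real.log (Nat.card {x' : Fin R → Bool //
      ∑ r, (if x' r then v r else 0) = ∑ r, (if x r then v r else 0)}) = 0 := by
    intro x
    have h2 : Nat.card {x' : Fin R → Bool //
      ∑ r, (if x' r then v r else 0) = ∑ r, (if x r then v r else 0)} = 1 := by
      rw [Nat.card_eq_one_iff_unique]
      refine ⟨⟨fun a b => Subtype.ext (h (a.2.trans b.2.symm))⟩, ⟨⟨x, rfl⟩⟩⟩
    rw [h2]
    simp
  rw [Finset.sum_congr rfl fun x _ => h1 x]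
  simp

theorem coll_le (γ : ℂ) (hγ : IsIntegral ℤ γ) (R : ℕ) :
    ∑ x : Fin R → Bool, (Nat.card {x' : Fin R → Bool //
      ∑ r, (if x' r then γ ^ (r : ℕ) else 0) = ∑ r, (if x r then γ ^ (r : ℕ) else 0)} : ℝ) ≤
      (4 / base (MM γ)) ^ R := by
  classical
  have hx : ∀ j : ↥(outer γ), 1 < ‖(j : ℂ)‖ := fun j => ((mem_outer γ hγ j).1 j.2).2
  have htot := total (fun j : ↥(outer γ) => (j : ℂ)) Subtype.val_injective hx R
  have h : ∀ (n : ℕ) (c : Fin n → ℤ), ∑ i, (c i : ℂ) * γ ^ (i : ℕ) = 0 →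
      ∀ j : ↥(outer γ), ∑ i, (c i : ℂ) * (j : ℂ) ^ (i : ℕ) = 0 := by
    intro n c hc j
    have h1 : aeval γ (∑ i : Fin n, C (c i) * X ^ (i : ℕ) : ℤ[X]) = 0 := by
      rw [map_sum, ← hc]
      refine Finset.sum_congr rfl fun i _ => ?_
      simp
    have h2 : minpoly ℤ γ ∣ (∑ i : Fin n, C (c i) * X ^ (i : ℕ) : ℤ[X]) :=
      minpoly.isIntegrallyClosed_dvd hγ h1
    obtain ⟨q, hq⟩ := h2
    have h3 : aeval (j : ℂ) (∑ i : Fin n, C (c i) * X ^ (i : ℕ) : ℤ[X]) = 0 := by
      rw [hq, map_mul, ((mem_outer γ hγ j).1 j.2).1, zero_mul]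
    rw [map_sum] at h3
    rw [← h3]
    refine Finset.sum_congr rfl fun i _ => ?_
    simp
  have hM : M2 (fun j : ↥(outer γ) => (j : ℂ)) = MM γ ^ 2 := by
    unfold M2
    rw [Finset.prod_pow, MM_eq γ hγ]
    congr 1
    exact Finset.prod_coe_sort (outer γ) (fun a => ‖a‖)
  have hb : 2 * (1 + al (fun j : ↥(outer γ) => (j : ℂ))) = 4 / base (MM γ) := by
    unfold al base
    rw [hM]
    have : 0 < 1 + Real.exp (-(1 - 1 / MM γ ^ 2)) := by positivity
    field_simp
    ring
  rw [← hb]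
  refine le_trans ?_ htot
  have h4 : ∑ x : Fin R → Bool, (Nat.card {x' : Fin R → Bool //
      ∑ r, (if x' r then γ ^ (r : ℕ) else 0) = ∑ r, (if x r then γ ^ (r : ℕ) else 0)} : ℝ) =
      ∑ p : (Fin R → Bool) × (Fin R → Bool), if dval γ p.2 = dval γ p.1 then (1 : ℝ) else 0 := by
    rw [Fintype.sum_prod_type]
    refine Finset.sum_congr rfl fun x _ => ?_
    rw [Nat.card_eq_fintype_card, Fintype.card_subtype, Finset.card_filter]
    push_cast
    rfl
  rw [h4, ← (Equiv.arrowProdEquivProdArrow (Fin R) (fun _ => Bool) (fun _ => Bool)).sum_comp]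
  refine Finset.sum_le_sum fun f _ => ?_
  split_ifs with hf
  · have h0 : SS (fun j : ↥(outer γ) => (j : ℂ)) f = 0 := by
      funext j
      have h1 := h R (fun i => (if (f i).1 then 1 else 0) - (if (f i).2 then 1 else 0)) (by
        have h2 : dval γ (fun i => (f i).2) = dval γ (fun i => (f i).1) := hf
        unfold dval at h2
        rw [eq_comm, ← sub_eq_zero, ← Finset.sum_sub_distrib] at h2
        rw [← h2]
        refine Finset.sum_congr rfl fun i _ => ?_
        push_cast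
        split_ifs <;> ring) j
      simp only [SS, Pi.zero_apply]
      rw [← h1]
      refine Finset.sum_congr rfl fun i _ => ?_
      unfold dd
      push_cast
      split_ifs <;> simp
    rw [h0]
    simp [NN]
  · exact (Real.exp_pos _).le

theorem hF_base (γ : ℂ) (hγ : IsIntegral ℤ γ) (R : ℕ) :
    R * Real.log (base (MM γ)) ≤ hF (fun r : Fin R => γ ^ (r : ℕ)) := by
  have h1 := hF_ge (fun r : Fin R => γ ^ (r : ℕ)) _ (coll_le γ hγ R)
  have hb := base_pos (MM γ)
  rw [Real.log_pow, Real.log_div (by norm_num) hb.ne',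
    show (4 : ℝ) = 2 ^ 2 by norm_num, Real.log_pow] at h1
  push_cast at h1
  linarith

theorem hF_of_card (γ : ℂ) (R : ℕ) (h : Nat.card ↥(H746UG.DS γ R) = 2 ^ R) :
    hF (fun r : Fin R => γ ^ (r : ℕ)) = R * Real.log 2 := by
  classical
  apply hF_inj
  rw [H746UG.DS_eq_digitSums] at h
  have h1 : Nat.card ↥(digitSums γ R) = 2 ^ R := h
  rw [card_digitSums] at h1
  have h2 : (Finset.univ.image (dval γ (n := R))).card = (Finset.univ : Finset (Fin R → Bool)).card := by
    rw [h1, Finset.card_univ]; simp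
  have h3 := Finset.card_image_iff.1 h2
  intro a b hab
  exact h3 (Finset.mem_coe.2 (Finset.mem_univ a)) (Finset.mem_coe.2 (Finset.mem_univ b)) hab

theorem hF_nonint (γ : ℂ) (hγ : γ ≠ 0) (h : ¬ (IsIntegral ℤ γ ∧ IsIntegral ℤ γ⁻¹)) (R : ℕ) :
    hF (fun r : Fin R => γ ^ (r : ℕ)) = R * Real.log 2 := by
  apply hF_of_card
  apply H746UG.card_DS_of_inj
  intro u v hl he
  by_contra hne
  exact h (H746UG.integral_of_collision γ hγ u v hl hne he)

/-- unconditional lower bound -/
theorem hF_unc : ∃ c : ℝ, 0 < c ∧ c ≤ Real.log 2 ∧ ∀ γ : ℂ, γ ≠ 0 → (∀ m > 0, γ ^ m ≠ 1) →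
    ∀ R : ℕ, 1 ≤ R → c * R / (Real.log (2 * R)) ^ 3 ≤ hF (fun r : Fin R => γ ^ (r : ℕ)) := by
  obtain ⟨c0, hc0, hdob⟩ := mm_dob
  have hl2 : 0 < Real.log 2 := Real.log_pos (by norm_num)
  have hl2' : Real.log 2 ≤ 1 := by
    have := Real.log_two_lt_d9
    linarith
  have hcl : min c0 ((Real.log 2) ^ 4) / 8 ≤ Real.log 2 := by
    have h1 : min c0 ((Real.log 2) ^ 4) ≤ (Real.log 2) ^ 4 := min_le_right _ _
    have h2 : (Real.log 2) ^ 4 ≤ Real.log 2 := by
      calc (Real.log 2) ^ 4 = (Real.log 2) ^ 3 * Real.log 2 := by ring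
        _ ≤ 1 * Real.log 2 := mul_le_mul_of_nonneg_right (pow_le_one₀ hl2.le hl2') hl2.le
        _ = Real.log 2 := one_mul _
    linarith
  refine ⟨min c0 ((Real.log 2) ^ 4) / 8, by positivity, hcl, ?_⟩
  intro x hx0 hroot n hn
  have hn1 : (1 : ℝ) ≤ n := by exact_mod_cast hn
  set l := Real.log (2 * n) with hl
  have hll : Real.log 2 ≤ l := Real.log_le_log (by norm_num) (by linarith)
  have hl0 : 0 < l := by linarith
  set c := min c0 ((Real.log 2) ^ 4) with hc
  have hcpos : 0 < c := by positivity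
  have hc1 : c ≤ c0 := min_le_left _ _
  have hc2 : c ≤ (Real.log 2) ^ 4 := min_le_right _ _
  have hl3 : (Real.log 2) ^ 3 ≤ l ^ 3 := pow_le_pow_left₀ hl2.le hll 3
  have htriv : Nat.card ↥(H746UG.DS x n) = 2 ^ n →
      c / 8 * n / l ^ 3 ≤ hF (fun r : Fin n => x ^ (r : ℕ)) := by
    intro h
    rw [hF_of_card x n h, div_le_iff₀ (by positivity)]
    have h1 : c / 8 ≤ Real.log 2 * l ^ 3 := by
      calc c / 8 ≤ c := by linarith
        _ ≤ (Real.log 2) ^ 4 := hc2
        _ = Real.log 2 * (Real.log 2) ^ 3 := by ring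
        _ ≤ Real.log 2 * l ^ 3 := mul_le_mul_of_nonneg_left hl3 hl2.le
    calc c / 8 * n ≤ (Real.log 2 * l ^ 3) * n := mul_le_mul_of_nonneg_right h1 (by linarith)
      _ = n * Real.log 2 * l ^ 3 := by ring
  by_cases hint : ¬ (IsIntegral ℤ x ∧ IsIntegral ℤ x⁻¹)
  · apply htriv
    apply H746UG.card_DS_of_inj
    intro u v hl he
    by_contra hne
    exact hint (H746UG.integral_of_collision x hx0 u v hl hne he)
  push Not at hint
  have hxi := hint.1
  rcases le_or_gt n (minpoly ℤ x).natDegree with hd | hd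
  · exact htriv (card_of_deg x hxi n hd)
  have hD : 1 ≤ (minpoly ℤ x).natDegree := minpoly.natDegree_pos hxi
  have hD1 : (1 : ℝ) ≤ (minpoly ℤ x).natDegree := by exact_mod_cast hD
  have hDn : ((minpoly ℤ x).natDegree : ℝ) ≤ n := by exact_mod_cast hd.le
  have h1 := hdob x hxi hx0 hroot
  have h2 : c / l ^ 3 ≤ Real.log (MM x) := by
    refine le_trans ?_ h1
    have h3 : 0 < Real.log (2 * (minpoly ℤ x).natDegree) := Real.log_pos (by linarith)
    have h4 : Real.log (2 * (minpoly ℤ x).natDegree) ≤ l :=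
      Real.log_le_log (by linarith) (by linarith)
    gcongr
  have h3 : c / l ^ 3 ≤ 1 := by
    rw [div_le_one (by positivity)]
    calc c ≤ (Real.log 2) ^ 4 := hc2
      _ = Real.log 2 * (Real.log 2) ^ 3 := by ring
      _ ≤ 1 * l ^ 3 := mul_le_mul hl2' hl3 (by positivity) zero_le_one
      _ = l ^ 3 := one_mul _
  have h4 := log_base_ge (MM_ge x hxi)
  have h5 : c / l ^ 3 ≤ min 1 (Real.log (MM x)) := le_min h3 h2
  refine le_trans ?_ (hF_base x hxi n)
  calc c / 8 * n / l ^ 3 = n * (c / l ^ 3 / 8) := by ring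
    _ ≤ n * (min 1 (Real.log (MM x)) / 8) := by gcongr
    _ ≤ n * Real.log (base (MM x)) := by gcongr

end Pool.Agent.K9h73.DL
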