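import Pool.Agent.N600.G3.Core
import Pool.Agent.K9h73.DL.Red
import Pool.Agent.K9h73.DL.Ren

/-!
# The trichotomy for `G''' = 1`
-/

set_option autoImplicit false

namespace Pool.Agent.K9h73.DL

open Pool.Agent.N600.G3
open scoped Pointwise commutatorElement
open Subgroup Filter Topology
open Pool.Agent.Helper111.EN.NSc (NS NS_ext NS_of_nilpotent_fg NS_top_iff)

universe u

/-- a nilpotent subgroup of finite index containing the derived subgroup -/
def SV (M : Type*) [Group M] : Prop :=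
  ∃ L : Subgroup M, L.Normal ∧ L.FiniteIndex ∧ commutator M ≤ L ∧ Group.IsNilpotent L

/-- the data given by the proof -/
def Data (G : Type*) [Group G] (T : Set G) : Prop :=
  ∃ (χ : commutator G →* ℂˣ) (f : commutator G → ℂ) (K : ℕ) (t : Fin K → commutator G)
    (g0 : Finset (Fin K)),
    (∀ x ∈ commutator (commutator G), ∀ y ∈ commutator (commutator G), f (x * y) = f x + f y) ∧
    (∀ m, ∀ x ∈ commutator (commutator G), f (m * x * m⁻¹) = (χ m : ℂ) * f x) ∧
    (∃ x ∈ commutator (commutator G), f x ≠ 0) ∧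
    (∀ m, IsIntegral ℤ (χ m : ℂ)) ∧
    0 < K ∧ K ≤ 2 * g0.card ∧ (∀ k ∈ g0, ∀ m > 0, (χ (t k) : ℂ) ^ m ≠ 1) ∧
    ∀ R : ℕ, ∑ k ∈ g0, hF (fun r : Fin R => (χ (t k) : ℂ) ^ (r : ℕ)) / 2 ≤
      K * Real.log (Nat.card ↥(T ^ (22 * R)))

lemma fg_of_map {G : Type*} [Group G] {H : Subgroup G} (K : Subgroup H)
    (h : (K.map H.subtype).FG) : K.FG := by
  rw [← Group.fg_iff_subgroup_fg] at h ⊢
  have e := K.equivMapOfInjective H.subtype H.subtype_injective
  exact Group.fg_of_surjective (f := e.symm.toMonoidHom) e.symm.surjective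

theorem core {G : Type u} [Group G] (T : Set G) (hfin : T.Finite) (h1T : 1 ∈ T)
    (hinv : T⁻¹ = T) (hgen : closure T = ⊤)
    (habel : ∀ x ∈ commutator (commutator G), ∀ y ∈ commutator (commutator G), x * y = y * x) :
    (∀ n : ℕ, 2 ^ n ≤ (Nat.card ↥(T ^ n)) ^ 88) ∨
      (NS (⊤ : Subgroup G) ∧ (SV (commutator G) ∨ Data G T)) := by
  rcases core3 T hfin h1T hinv hgen habel with h | h
  · exact Or.inl h
  right
  refine ⟨h, ?_⟩
  have hFG : (commutator G).FG := h _ le_top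
  have hN : (commutator (commutator G)).FG := fg_of_map _ (h _ le_top)
  exact red G T hfin h1T hinv hgen hFG habel hN

/-- consequences for the growth -/
theorem growth_of_data {G : Type*} [Group G] {T : Set G} {K : ℕ} {g0 : Finset (Fin K)}
    (hK : 0 < K) (hKg : K ≤ 2 * g0.card) (γ : Fin K → ℂ) (R : ℕ) (L : ℝ) (hL : 0 ≤ L)
    (hg : ∀ k ∈ g0, L ≤ hF (fun r : Fin R => γ k ^ (r : ℕ)))
    (hR : ∑ k ∈ g0, hF (fun r : Fin R => γ k ^ (r : ℕ)) / 2 ≤
      K * Real.log (Nat.card ↥(T ^ (22 * R)))) :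
    L / 4 ≤ Real.log (Nat.card ↥(T ^ (22 * R))) := by
  have h1 : (g0.card : ℝ) * (L / 2) ≤
      ∑ k ∈ g0, hF (fun r : Fin R => γ k ^ (r : ℕ)) / 2 := by
    rw [← nsmul_eq_mul, ← Finset.sum_const]
    refine Finset.sum_le_sum fun k hk => ?_
    have := hg k hk
    linarith
  have hKR : (0 : ℝ) < K := by exact_mod_cast hK
  have hKg' : (K : ℝ) ≤ 2 * g0.card := by exact_mod_cast hKg
  have h2 : (K : ℝ) * (L / 4) ≤ K * Real.log (Nat.card ↥(T ^ (22 * R))) := by
    refine le_trans ?_ (h1.trans hR)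
    nlinarith
  exact le_of_mul_le_mul_left h2 hKR

end Pool.Agent.K9h73.DL
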