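import Pool.Agent.K9h73.DL.Eig

/-!
# Degrees of the eigenvalues
-/

set_option autoImplicit false

namespace Pool.Agent.K9h73.DL

open Subgroup Polynomial

universe u

theorem deg_le {G : Type u} [Group G] (N : Subgroup G) [N.Normal] (t : G)
    (f : N →* Multiplicative ℂ) (z : ℂ)
    (hf : ∀ x : N, (f (MulAut.conjNormal t x)).toAdd = z * (f x).toAdd)
    (hne : ∃ x, (f x).toAdd ≠ 0) (hfin : Module.Finite ℤ (Additive (Abelianization N)))
    (hz : IsIntegral ℤ z) (m : ℕ)
    (hm : Module.rank ℤ (Additive (Abelianization N)) ≤ m) :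
    (minpoly ℤ z).natDegree ≤ m := by
  set A := Additive (Abelianization N) with hA
  let l0 : A →ₗ[ℤ] ℂ := (MonoidHom.toAdditiveLeft (Abelianization.lift f)).toIntLinearMap
  have hl0 : ∀ x : N, l0 (Additive.ofMul (Abelianization.of x)) = (f x).toAdd := fun x => rfl
  have hT : ∀ m : A, l0 (conjAb N t m) = z * l0 m := by
    intro m
    induction m using Additive.rec with
    | ofMul m =>
      obtain ⟨x, rfl⟩ := QuotientGroup.mk_surjective m
      exact hf x
  let B : Submodule ℤ ℂ := LinearMap.range l0
  have hBfin : Module.Finite ℤ B := inferInstance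
  have hBtf : Module.IsTorsionFree ℤ B := inferInstance
  have hBfree : Module.Free ℤ B := inferInstance
  have hstab : ∀ b ∈ B, (LinearMap.mulLeft ℤ z) b ∈ B := by
    rintro _ ⟨a, rfl⟩
    exact ⟨conjAb N t a, hT a⟩
  let g : Module.End ℤ B := (LinearMap.mulLeft ℤ z).restrict hstab
  have hg : ∀ b : B, ((g b : B) : ℂ) = z * b := fun b => rfl
  have hpow : ∀ (k : ℕ) (b : B), (((g ^ k) b : B) : ℂ) = z ^ k * b := by
    intro k
    induction k with
    | zero => intro b; simp
    | succ k ih =>
      intro b
      rw [pow_succ, Module.End.mul_apply, ih, hg]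
      ring
  have hae : ∀ (p : ℤ[X]) (b : B), (((aeval g p) b : B) : ℂ) = (aeval z p) * b := by
    intro p b
    induction p using Polynomial.induction_on' with
    | add p q hp hq =>
      rw [map_add, map_add, LinearMap.add_apply, Submodule.coe_add, hp, hq]
      ring
    | monomial k n =>
      rw [aeval_monomial, aeval_monomial, Module.End.mul_apply, Module.algebraMap_end_apply]
      rw [Submodule.coe_smul, hpow, zsmul_eq_mul]
      simp
      ring
  obtain ⟨x, hx⟩ := hne
  have h1 := hae g.charpoly ⟨l0 (Additive.ofMul (Abelianization.of x)), _, rfl⟩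
  rw [LinearMap.aeval_self_charpoly, LinearMap.zero_apply, Submodule.coe_zero] at h1
  have h2 : aeval z g.charpoly = 0 := by
    rcases mul_eq_zero.1 h1.symm with h | h
    · exact h
    · exact absurd h hx
  have h3 := minpoly.isIntegrallyClosed_dvd hz h2
  have h4 := natDegree_le_of_dvd h3 (LinearMap.charpoly_monic g).ne_zero
  refine h4.trans ?_
  rw [LinearMap.charpoly_natDegree]
  apply Module.finrank_le_of_rank_le
  have h5 := lift_rank_range_le l0
  exact Cardinal.lift_le_nat_iff.1 (h5.trans (Cardinal.lift_le_nat_iff.2 hm))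

end Pool.Agent.K9h73.DL
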