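import Mathlib

/-!
# Eigenvalues on the abelianization from equivariant functionals
-/

set_option autoImplicit false

namespace Pool.Agent.K9h73.DL

open scoped TensorProduct commutatorElement
open Subgroup

/-- Conjugation by `t` on the abelianization `N^ab` (written additively) of a normal subgroup `N`,
as an endomorphism of the abelian group `N^ab`. -/
noncomputable def conjAb {G : Type*} [Group G] (N : Subgroup G) [N.Normal] (t : G) :
    Module.End ℤ (Additive (Abelianization N)) :=
  (MonoidHom.toAdditive
    (Abelianization.map (MulAut.conjNormal t : N ≃* N).toMonoidHom)).toIntLinearMap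

lemma conjAb_of {G : Type*} [Group G] (N : Subgroup G) [N.Normal] (t : G) (x : N) :
    conjAb N t (Additive.ofMul (Abelianization.of x)) =
      Additive.ofMul (Abelianization.of (MulAut.conjNormal t x)) := rfl

theorem eig {G : Type*} [Group G] (N : Subgroup G) [N.Normal] (t : G)
    (f : N →* Multiplicative ℂ) (z : ℂ)
    (hf : ∀ x : N, (f (MulAut.conjNormal t x)).toAdd = z * (f x).toAdd)
    (hne : ∃ x, (f x).toAdd ≠ 0) (hfin : Module.Finite ℤ (Additive (Abelianization N))) :
    Module.End.HasEigenvalue (LinearMap.baseChange ℂ (conjAb N t) :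
      Module.End ℂ (ℂ ⊗[ℤ] Additive (Abelianization N))) z := by
  set A := Additive (Abelianization N) with hA
  let l0 : A →ₗ[ℤ] ℂ := (MonoidHom.toAdditiveLeft (Abelianization.lift f)).toIntLinearMap
  have hl0 : ∀ x : N, l0 (Additive.ofMul (Abelianization.of x)) = (f x).toAdd := fun x => rfl
  let l : ℂ ⊗[ℤ] A →ₗ[ℂ] ℂ := LinearMap.liftBaseChange ℂ l0
  have hl : ∀ (a : ℂ) (m : A), l (a ⊗ₜ m) = a * l0 m := fun a m => by
    show LinearMap.liftBaseChange ℂ l0 (a ⊗ₜ m) = _
    rw [LinearMap.liftBaseChange_tmul, smul_eq_mul]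
  have hT : ∀ m : A, l0 (conjAb N t m) = z * l0 m := by
    intro m
    induction m using Additive.rec with
    | ofMul m =>
      obtain ⟨x, rfl⟩ := QuotientGroup.mk_surjective m
      exact hf x
  have hcomp : ∀ w : ℂ ⊗[ℤ] A, l (LinearMap.baseChange ℂ (conjAb N t) w) = z * l w := by
    intro w
    induction w using TensorProduct.induction_on with
    | zero => simp
    | tmul a m =>
      rw [LinearMap.baseChange_tmul, hl, hl, hT]
      ring
    | add x y hx hy => rw [map_add, map_add, hx, hy, map_add, mul_add]
  by_contra hcon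
  rw [Module.End.hasEigenvalue_iff_mem_spectrum, spectrum.mem_iff, not_not] at hcon
  have hsurj : Function.Surjective
      (algebraMap ℂ (Module.End ℂ (ℂ ⊗[ℤ] A)) z - LinearMap.baseChange ℂ (conjAb N t)) := by
    exact ((Module.End.isUnit_iff _).1 hcon).2
  obtain ⟨x, hx⟩ := hne
  obtain ⟨w, hw⟩ := hsurj (1 ⊗ₜ Additive.ofMul (Abelianization.of x))
  have h1 := congrArg l hw
  rw [LinearMap.sub_apply, map_sub, hcomp, Module.algebraMap_end_apply, map_smul, smul_eq_mul,
    sub_self, hl, hl0, one_mul] at h1
  exact hx h1.symm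

/-- the abelianization of `N` as a quotient of the image of `N` in `G ⧸ [N, N]` -/
theorem fin_of_map {G : Type*} [Group G] (N D : Subgroup G) [D.Normal] (hD : D = ⁅N, N⁆)
    (h : (N.map (QuotientGroup.mk' D)).FG) :
    Module.Finite ℤ (Additive (Abelianization N)) := by
  let φ : N →* N.map (QuotientGroup.mk' D) := (QuotientGroup.mk' D).subgroupMap N
  have hφ : Function.Surjective φ := (QuotientGroup.mk' D).subgroupMap_surjective N
  have hker : φ.ker ≤ (Abelianization.of (G := N)).ker := by
    intro x hx
    rw [MonoidHom.mem_ker] at hx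
    have h1 : (QuotientGroup.mk' D) (x : G) = 1 := congrArg Subtype.val hx
    have h2 : (x : G) ∈ D := (QuotientGroup.eq_one_iff _).1 h1
    rw [hD, ← map_subtype_commutator] at h2
    obtain ⟨y, hy, hyx⟩ := h2
    have h3 : y = x := Subtype.ext hyx
    rw [← h3, Abelianization.ker_of]
    exact hy
  have hfg : Group.FG (N.map (QuotientGroup.mk' D)) := (Group.fg_iff_subgroup_fg _).2 h
  let e := QuotientGroup.quotientKerEquivOfSurjective φ hφ
  let ψ : N ⧸ φ.ker →* Abelianization N := QuotientGroup.lift φ.ker Abelianization.of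
    (fun x hx => hker hx)
  have hψ : Function.Surjective ψ := by
    intro y
    obtain ⟨x, rfl⟩ := QuotientGroup.mk_surjective y
    exact ⟨QuotientGroup.mk x, rfl⟩
  have h4 : Group.FG (N ⧸ φ.ker) := Group.fg_of_surjective (f := e.symm.toMonoidHom) e.symm.surjective
  have h5 : Group.FG (Abelianization N) := Group.fg_of_surjective (f := ψ) hψ
  rw [Module.Finite.iff_addGroup_fg]
  infer_instance

end Pool.Agent.K9h73.DL
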