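import Mathlib

/-!
# Entropy of random subset sums is monotone and submodular

For a finite family `a : ι → F` in an abelian group and a finite set `S` of indices let
`ff a S` be the entropy of the random sum `∑_{i ∈ S} x_i a_i` with independent uniform bits `x_i`.
-/

set_option autoImplicit false
set_option linter.unusedSectionVars false

namespace Pool.Agent.K9h73.DL

open Finset Real

/-- `t log t` -/
noncomputable def phi (t : ℝ) : ℝ := t * Real.log t

noncomputable def psi (s t : ℝ) : ℝ := phi (s + t) - phi s - phi t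

theorem phi_zero : phi 0 = 0 := by simp [phi]

theorem psi_zero : psi 0 0 = 0 := by simp [psi, phi_zero]

/-- basic inequality -/
theorem kl {s u a b : ℝ} (hs : 0 ≤ s) (hu : s ≤ u) (ha : 0 < a) (hb : 0 < b) :
    s * (Real.log u + Real.log a - Real.log b - Real.log s) ≤ u * a / b - s := by
  rcases hs.eq_or_lt with h | h
  · rw [← h]
    have hu0 : 0 ≤ u := hs.trans hu
    have : 0 ≤ u * a / b := by positivity
    linarith
  · have hu0 : 0 < u := h.trans_le hu
    have h1 : Real.log (u * a / (b * s)) = Real.log u + Real.log a - Real.log b - Real.log s := by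
      rw [Real.log_div (by positivity) (by positivity), Real.log_mul hu0.ne' ha.ne',
        Real.log_mul hb.ne' h.ne']
      ring
    rw [← h1]
    have h2 := Real.log_le_sub_one_of_pos (show 0 < u * a / (b * s) by positivity)
    calc s * Real.log (u * a / (b * s)) ≤ s * (u * a / (b * s) - 1) :=
          mul_le_mul_of_nonneg_left h2 hs
      _ = u * a / b - s := by field_simp

/-- two-term log-sum inequality -/
theorem logsum2 {s s' u u' : ℝ} (hs : 0 ≤ s) (hs' : 0 ≤ s') (hu : s ≤ u) (hu' : s' ≤ u') :
    s * (Real.log u - Real.log s) + s' * (Real.log u' - Real.log s') ≤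
      (s + s') * (Real.log (u + u') - Real.log (s + s')) := by
  rcases (add_nonneg hs hs').eq_or_lt with h | h
  · have h1 : s = 0 := by linarith
    have h2 : s' = 0 := by linarith
    rw [h1, h2]; simp
  · have hb : 0 < u + u' := by linarith
    have h1 := kl hs hu h hb
    have h2 := kl hs' hu' h hb
    have h3 : u * (s + s') / (u + u') + u' * (s + s') / (u + u') = s + s' := by
      field_simp
    nlinarith

theorem psi_super {s t s' t' : ℝ} (hs : 0 ≤ s) (ht : 0 ≤ t) (hs' : 0 ≤ s') (ht' : 0 ≤ t') :
    psi s t + psi s' t' ≤ psi (s + s') (t + t') := by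
  have h1 := logsum2 hs hs' (show s ≤ s + t by linarith) (show s' ≤ s' + t' by linarith)
  have h2 := logsum2 ht ht' (show t ≤ s + t by linarith) (show t' ≤ s' + t' by linarith)
  have h3 : s + t + (s' + t') = s + s' + (t + t') := by ring
  rw [h3] at h1 h2
  unfold psi phi
  nlinarith

theorem psi_le {s t : ℝ} (hs : 0 ≤ s) (ht : 0 ≤ t) : psi s t ≤ (s + t) * Real.log 2 := by
  have h1 := logsum2 hs ht (show s ≤ s + t by linarith) (show t ≤ s + t by linarith)
  rcases (add_nonneg hs ht).eq_or_lt with h | h
  · have h1 : s = 0 := by linarith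
    have h2 : t = 0 := by linarith
    rw [h1, h2]; simp [psi_zero]
  · have h4 : Real.log (s + t + (s + t)) = Real.log 2 + Real.log (s + t) := by
      rw [← Real.log_mul (by norm_num) h.ne']
      congr 1; ring
    rw [h4] at h1
    unfold psi phi
    nlinarith

section count

variable {ι F : Type*} [DecidableEq ι] [AddCommGroup F]

open Classical in
/-- number of subsets of `S` with sum `y` -/
noncomputable def cnt (a : ι → F) (S : Finset ι) (y : F) : ℝ :=
  ∑ T ∈ S.powerset, if ∑ i ∈ T, a i = y then 1 else 0

theorem cnt_nonneg (a : ι → F) (S : Finset ι) (y : F) : 0 ≤ cnt a S y := by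
  unfold cnt
  refine Finset.sum_nonneg fun T _ => ?_
  split_ifs <;> norm_num

theorem cnt_insert (a : ι → F) {S : Finset ι} {j : ι} (hj : j ∉ S) (y : F) :
    cnt a (insert j S) y = cnt a S y + cnt a S (y - a j) := by
  unfold cnt
  rw [Finset.sum_powerset_insert hj]
  congr 1
  refine Finset.sum_congr rfl fun T hT => ?_
  have hjT : j ∉ T := fun h => hj (Finset.mem_powerset.1 hT h)
  rw [Finset.sum_insert hjT]
  congr 1
  apply propext
  constructor
  · intro h; rw [← h]; abel
  · intro h; rw [h]; abel

theorem cnt_supp (a : ι → F) (S : Finset ι) : (Function.support (cnt a S)).Finite := by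
  classical
  refine ((S.powerset.image fun T => ∑ i ∈ T, a i).finite_toSet).subset ?_
  intro y hy
  by_contra hne
  apply hy
  unfold cnt
  refine Finset.sum_eq_zero fun T hT => ?_
  rw [if_neg]
  intro h
  apply hne
  rw [Finset.mem_coe, Finset.mem_image]
  exact ⟨T, hT, h⟩

theorem shift_supp {c : F → ℝ} (hc : (Function.support c).Finite) (a : F) :
    (Function.support fun y => c (y - a)).Finite := by
  refine Set.Finite.subset (hc.image fun y => y + a) ?_
  intro y hy
  exact ⟨y - a, hy, sub_add_cancel y a⟩

theorem comp_supp {c : F → ℝ} (hc : (Function.support c).Finite) {g : ℝ → ℝ} (hg : g 0 = 0) :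
    (Function.support fun y => g (c y)).Finite := by
  refine hc.subset ?_
  intro y hy h
  apply hy
  show g (c y) = 0
  have : c y = 0 := h
  rw [this, hg]

theorem comp2_supp {c c' : F → ℝ} (hc : (Function.support c).Finite)
    (hc' : (Function.support c').Finite) {g : ℝ → ℝ → ℝ} (hg : g 0 0 = 0) :
    (Function.support fun y => g (c y) (c' y)).Finite := by
  refine (hc.union hc').subset ?_
  intro y hy
  by_contra h
  rw [Set.mem_union, not_or] at h
  apply hy
  have h1 : c y = 0 := by by_contra h'; exact h.1 h'
  have h2 : c' y = 0 := by by_contra h'; exact h.2 h'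
  show g (c y) (c' y) = 0
  rw [h1, h2, hg]

theorem finsum_shift (g : F → ℝ) (a : F) : ∑ᶠ y, g (y - a) = ∑ᶠ y, g y :=
  finsum_comp_equiv (Equiv.subRight a)

/-- monotonicity of finite sums -/
theorem finsum_mono {g h : F → ℝ} (hg : (Function.support g).Finite)
    (hh : (Function.support h).Finite) (hle : ∀ y, g y ≤ h y) : ∑ᶠ y, g y ≤ ∑ᶠ y, h y := by
  classical
  rw [finsum_eq_sum_of_support_subset g (s := (hg.union hh).toFinset) (by simp),
    finsum_eq_sum_of_support_subset h (s := (hg.union hh).toFinset) (by simp)]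
  exact Finset.sum_le_sum fun y _ => hle y

/-- `∑ c log c` -/
noncomputable def Lam (c : F → ℝ) : ℝ := ∑ᶠ y, phi (c y)

noncomputable def Gam (a : F) (c : F → ℝ) : ℝ := ∑ᶠ y, psi (c y) (c (y - a))

theorem Lam_insert (a : ι → F) {S : Finset ι} {j : ι} (hj : j ∉ S) :
    Lam (cnt a (insert j S)) = 2 * Lam (cnt a S) + Gam (a j) (cnt a S) := by
  have hc := cnt_supp a S
  have hc' := shift_supp hc (a j)
  have h1 : ∀ y, phi (cnt a (insert j S) y) =
      phi (cnt a S y) + phi (cnt a S (y - a j)) + psi (cnt a S y) (cnt a S (y - a j)) := by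
    intro y
    rw [cnt_insert a hj]
    unfold psi
    ring
  unfold Lam Gam
  rw [finsum_congr h1, finsum_add_distrib, finsum_add_distrib]
  · rw [finsum_shift (fun y => phi (cnt a S y)) (a j)]
    ring
  · exact comp_supp hc phi_zero
  · exact comp_supp hc' phi_zero
  · refine comp2_supp (g := fun s t => phi s + phi t) hc hc' ?_
    simp [phi_zero]
  · exact comp2_supp hc hc' psi_zero

theorem Gam_insert (a : ι → F) {S : Finset ι} {j : ι} (hj : j ∉ S) (b : F) :
    2 * Gam b (cnt a S) ≤ Gam b (cnt a (insert j S)) := by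
  have hc := cnt_supp a S
  have hc' := shift_supp hc b
  have hd := comp2_supp hc hc' psi_zero
  unfold Gam
  have h1 : ∀ y, psi (cnt a S y) (cnt a S (y - b)) +
      psi (cnt a S (y - a j)) (cnt a S (y - a j - b)) ≤
      psi (cnt a (insert j S) y) (cnt a (insert j S) (y - b)) := by
    intro y
    rw [cnt_insert a hj, cnt_insert a hj]
    have e : y - b - a j = y - a j - b := by abel
    rw [e]
    exact psi_super (cnt_nonneg _ _ _) (cnt_nonneg _ _ _) (cnt_nonneg _ _ _) (cnt_nonneg _ _ _)
  have h2 := finsum_mono (g := fun y => psi (cnt a S y) (cnt a S (y - b)) +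
      psi (cnt a S (y - a j)) (cnt a S (y - a j - b)))
      (h := fun y => psi (cnt a (insert j S) y) (cnt a (insert j S) (y - b))) ?_ ?_ h1
  · rw [finsum_add_distrib hd (shift_supp hd (a j)),
      finsum_shift (fun y => psi (cnt a S y) (cnt a S (y - b))) (a j)] at h2
    linarith
  · exact comp2_supp (g := fun s t => s + t) hd (shift_supp hd (a j)) (by simp)
  · exact comp2_supp (cnt_supp a _) (shift_supp (cnt_supp a _) b) psi_zero

theorem mass (a : ι → F) (S : Finset ι) : ∑ᶠ y, cnt a S y = 2 ^ S.card := by
  induction S using Finset.induction_on with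
  | empty =>
    classical
    have h1 : ∀ y : F, cnt a ∅ y = if y = 0 then 1 else 0 := by
      intro y
      unfold cnt
      rw [Finset.powerset_empty, Finset.sum_singleton, Finset.sum_empty]
      by_cases h : y = 0
      · rw [if_pos h, if_pos h.symm]
      · rw [if_neg h, if_neg fun h' => h h'.symm]
    rw [finsum_congr h1, finsum_eq_single _ (0 : F) (fun y hy => if_neg hy)]
    simp
  | insert j S hj ih =>
    rw [finsum_congr (fun y => cnt_insert a hj y),
      finsum_add_distrib (cnt_supp a S) (shift_supp (cnt_supp a S) (a j)),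
      finsum_shift, ih, Finset.card_insert_of_notMem hj, pow_succ]
    ring

theorem Gam_le (a : ι → F) (S : Finset ι) (b : F) :
    Gam b (cnt a S) ≤ 2 ^ (S.card + 1) * Real.log 2 := by
  have hc := cnt_supp a S
  have hc' := shift_supp hc b
  unfold Gam
  have h1 : ∀ y, psi (cnt a S y) (cnt a S (y - b)) ≤
      (cnt a S y + cnt a S (y - b)) * Real.log 2 := fun y =>
    psi_le (cnt_nonneg _ _ _) (cnt_nonneg _ _ _)
  have h2 := finsum_mono (comp2_supp hc hc' psi_zero)
    (comp2_supp (g := fun s t => (s + t) * Real.log 2) hc hc' (by simp)) h1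
  refine h2.trans (le_of_eq ?_)
  rw [← finsum_mul, finsum_add_distrib hc hc', finsum_shift, mass, pow_succ]
  ring

/-- entropy of the random subset sum -/
noncomputable def ff (a : ι → F) (S : Finset ι) : ℝ :=
  S.card * Real.log 2 - Lam (cnt a S) / 2 ^ S.card

theorem ff_insert (a : ι → F) {S : Finset ι} {j : ι} (hj : j ∉ S) :
    ff a (insert j S) - ff a S = Real.log 2 - Gam (a j) (cnt a S) / 2 ^ (S.card + 1) := by
  unfold ff
  rw [Lam_insert a hj, Finset.card_insert_of_notMem hj, pow_succ]
  have : (2 : ℝ) ^ S.card ≠ 0 := by positivity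
  field_simp
  push_cast
  ring

theorem ff_mono1 (a : ι → F) (S : Finset ι) (j : ι) : ff a S ≤ ff a (insert j S) := by
  by_cases hj : j ∈ S
  · rw [Finset.insert_eq_of_mem hj]
  · have h1 := ff_insert a hj
    have h2 := Gam_le a S (a j)
    have h3 : (0 : ℝ) < 2 ^ (S.card + 1) := by positivity
    have h4 : Gam (a j) (cnt a S) / 2 ^ (S.card + 1) ≤ Real.log 2 := by
      rw [div_le_iff₀ h3]; linarith
    linarith

theorem ff_mono (a : ι → F) {S T : Finset ι} (h : S ⊆ T) : ff a S ≤ ff a T := by
  have key : ∀ U : Finset ι, ff a S ≤ ff a (U ∪ S) := by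
    intro U
    induction U using Finset.induction_on with
    | empty => rw [Finset.empty_union]
    | insert j U _ ih =>
      rw [Finset.insert_union]
      exact ih.trans (ff_mono1 a _ _)
  have h1 := key T
  rwa [Finset.union_eq_left.2 h] at h1

theorem ff_sub1 (a : ι → F) (S : Finset ι) (e j : ι) :
    ff a (insert e (insert j S)) - ff a (insert j S) ≤ ff a (insert e S) - ff a S := by
  by_cases hj : j ∈ S
  · rw [Finset.insert_eq_of_mem hj]
  by_cases he : e ∈ insert j S
  · rw [Finset.insert_eq_of_mem he]
    have := ff_mono1 a S e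
    linarith
  have heS : e ∉ S := fun h => he (Finset.mem_insert_of_mem h)
  rw [ff_insert a he, ff_insert a heS, Finset.card_insert_of_notMem hj]
  have h1 := Gam_insert a hj (a e)
  have h2 : (0 : ℝ) < 2 ^ (S.card + 1) := by positivity
  have h3 : Gam (a e) (cnt a S) / 2 ^ (S.card + 1) =
      2 * Gam (a e) (cnt a S) / 2 ^ (S.card + 1 + 1) := by
    rw [pow_succ (2 : ℝ) (S.card + 1)]
    field_simp
  rw [h3]
  have h4 : (2 * Gam (a e) (cnt a S)) / 2 ^ (S.card + 1 + 1) ≤
      Gam (a e) (cnt a (insert j S)) / 2 ^ (S.card + 1 + 1) :=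
    div_le_div_of_nonneg_right h1 (by positivity)
  linarith

theorem ff_sub (a : ι → F) {S T : Finset ι} (h : S ⊆ T) (e : ι) :
    ff a (insert e T) - ff a T ≤ ff a (insert e S) - ff a S := by
  have key : ∀ U : Finset ι, ff a (insert e (U ∪ S)) - ff a (U ∪ S) ≤
      ff a (insert e S) - ff a S := by
    intro U
    induction U using Finset.induction_on with
    | empty => rw [Finset.empty_union]
    | insert j U _ ih =>
      rw [Finset.insert_union]
      exact (ff_sub1 a _ e j).trans ih
  have h1 := key T
  rwa [Finset.union_eq_left.2 h] at h1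

theorem ff_empty (a : ι → F) : ff a ∅ = 0 := by
  classical
  unfold ff Lam
  have h1 : ∀ y : F, phi (cnt a ∅ y) = 0 := by
    intro y
    unfold cnt
    rw [Finset.powerset_empty, Finset.sum_singleton]
    split_ifs <;> simp [phi]
  rw [finsum_congr h1]
  simp

end count

end Pool.Agent.K9h73.DL
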