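import Pool.Agent.K9h73.DL.Lift
import Pool.Agent.K9h73.DL.Deg

/-!
# Final form of the gap theorem for derived length three
-/

set_option autoImplicit false

namespace Pool.Agent.K9h73.DL

open Pool.Agent.N600.G3
open scoped Pointwise commutatorElement TensorProduct
open Subgroup Filter Topology
open Pool.Agent.W963.GE (MM base MM_ge log_base_ge TT TT_finite TT_gen card_TT_pow rho_TT)

universe u

/-- `z` is an algebraic unit and not a root of unity -/
def UnitNR (z : ℂ) : Prop := IsIntegral ℤ z ∧ IsIntegral ℤ z⁻¹ ∧ z ≠ 0 ∧ ∀ m > 0, z ^ m ≠ 1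

/-- `z` is an eigenvalue of an element of `G'` on `ℂ ⊗ (G'')^ab` -/
def EV (G : Type*) [Group G] (z : ℂ) : Prop :=
  ∃ t ∈ commutator G, Module.End.HasEigenvalue
    (LinearMap.baseChange ℂ (conjAb (derivedSeries G 2) t) :
      Module.End ℂ (ℂ ⊗[ℤ] Additive (Abelianization (derivedSeries G 2)))) z

/-- degree bound by the rank of `(G'')^ab` -/
def DegLe (G : Type*) [Group G] (z : ℂ) : Prop :=
  ∀ m : ℕ, Module.rank ℤ (Additive (Abelianization (derivedSeries G 2))) ≤ m →
    (minpoly ℤ z).natDegree ≤ m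

theorem log_base_nn {M : ℝ} (hM : 1 ≤ M) : 0 ≤ Real.log (base M) := by
  have h1 := log_base_ge hM
  have h2 : 0 ≤ min 1 (Real.log M) := le_min zero_le_one (Real.log_nonneg hM)
  linarith

theorem T_main {G : Type u} [Group G] (T : Set G) (h : DataG G T) :
    ∃ z : ℂ, UnitNR z ∧ EV G z ∧ DegLe G z ∧ Real.log (base (MM z)) / 88 ≤ H746UG.rho T := by
  obtain ⟨K, t, γ, g0, f, hK, hKg, ht, hγ, hroot, hne, hf, hfin, hR⟩ := h
  have hg0 : g0.Nonempty := by
    rw [← Finset.card_pos]; omega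
  obtain ⟨k0, hk0, hmin⟩ := Finset.exists_min_image g0 (fun k => Real.log (base (MM (γ k)))) hg0
  refine ⟨γ k0, ⟨(hγ k0).1, (hγ k0).2.1, (hγ k0).2.2, hroot k0 hk0⟩,
    ⟨t k0, ht k0, eig _ (t k0) f (γ k0) (hf k0) hne hfin⟩,
    fun m hm => deg_le _ (t k0) f (γ k0) (hf k0) hne hfin (hγ k0).1 m hm, ?_⟩
  set lam := Real.log (base (MM (γ k0))) with hlam
  have hlam0 : 0 ≤ lam := log_base_nn (MM_ge _ (hγ k0).1)
  have key : ∀ R : ℕ, R * lam / 4 ≤ Real.log (Nat.card ↥(T ^ (22 * R))) := by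
    intro R
    refine growth_of_data hK hKg γ R (R * lam) (by positivity) ?_ (hR R)
    intro k hk
    refine le_trans ?_ (hF_base (γ k) (hγ k).1 R)
    exact mul_le_mul_of_nonneg_left (hmin k hk) (Nat.cast_nonneg R)
  have hlim : Tendsto (fun R : ℕ => Real.log (Nat.card ↥(T ^ (22 * R))) / (22 * R : ℕ)) atTop
      (𝓝 (H746UG.rho T)) :=
    (H746UG.tendsto_rho T).comp (tendsto_id.const_mul_atTop' (show 0 < 22 by norm_num))
  refine ge_of_tendsto hlim ?_
  filter_upwards [eventually_gt_atTop 0] with R hR0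
  have h1 := key R
  have h2 : (0 : ℝ) < R := by exact_mod_cast hR0
  rw [div_le_div_iff₀ (by norm_num) (by positivity)]
  push_cast
  nlinarith

/-- constant in the unconditional bound -/
theorem T_unc : ∃ c : ℝ, 0 < c ∧ c ≤ (Real.log 2) ^ 4 ∧ ∀ (G : Type u) [Group G] (T : Set G),
    ((∀ n : ℕ, 2 ^ n ≤ (Nat.card ↥(T ^ n)) ^ 88) ∨ DataG G T) → ∀ R : ℕ, 1 ≤ R →
      c * R / (Real.log (2 * R)) ^ 3 / 4 ≤ Real.log (Nat.card ↥(T ^ (22 * R))) := by
  obtain ⟨c0, hc0, -, hunc⟩ := hF_unc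
  have hl2 : 0 < Real.log 2 := Real.log_pos (by norm_num)
  refine ⟨min c0 ((Real.log 2) ^ 4), by positivity, min_le_right _ _, ?_⟩
  intro G _ T h R hR
  set c := min c0 ((Real.log 2) ^ 4) with hc
  have hcpos : 0 < c := by positivity
  have hc1 : c ≤ c0 := min_le_left _ _
  have hc2 : c ≤ (Real.log 2) ^ 4 := min_le_right _ _
  have hR1 : (1 : ℝ) ≤ R := by exact_mod_cast hR
  set l := Real.log (2 * R) with hl
  have hll : Real.log 2 ≤ l := Real.log_le_log (by norm_num) (by linarith)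
  have hl0 : 0 < l := by linarith
  have hl3 : (Real.log 2) ^ 3 ≤ l ^ 3 := pow_le_pow_left₀ hl2.le hll 3
  have hl3p : 0 < l ^ 3 := by positivity
  rcases h with h | ⟨K, t, γ, g0, f, hK, hKg, ht, hγ, hroot, hne, hf, hfin, hRR⟩
  · have h1 := h (22 * R)
    have h2 : (1 : ℝ) ≤ (Nat.card ↥(T ^ (22 * R)) : ℝ) ^ 88 := by
      have : (1 : ℕ) ≤ (Nat.card ↥(T ^ (22 * R))) ^ 88 := Nat.one_le_two_pow.trans h1
      exact_mod_cast this
    have h3 : Real.log ((2 : ℝ) ^ (22 * R)) ≤
        Real.log ((Nat.card ↥(T ^ (22 * R)) : ℝ) ^ 88) := by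
      apply Real.log_le_log (by positivity)
      exact_mod_cast h1
    rw [Real.log_pow, Real.log_pow] at h3
    push_cast at h3
    have h4 : c * R / l ^ 3 ≤ R * Real.log 2 := by
      rw [div_le_iff₀ hl3p]
      calc c * R ≤ (Real.log 2) ^ 4 * R := mul_le_mul_of_nonneg_right hc2 (by linarith)
        _ = R * Real.log 2 * (Real.log 2) ^ 3 := by ring
        _ ≤ R * Real.log 2 * l ^ 3 := mul_le_mul_of_nonneg_left hl3 (by positivity)
    linarith
  · refine growth_of_data hK hKg γ R _ (by positivity) ?_ (hRR R)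
    intro k hk
    refine le_trans ?_ (hunc (γ k) (hγ k).2.2 (hroot k hk) R hR)
    gcongr

lemma exc_of_sub (G : Type*) [Group G] [hs : Subsingleton G] : Exc G := by
  have h : ∀ (X : Type _) [Group X] [Subsingleton X], Group.IsVirtuallyNilpotent X := by
    intro X _ _
    exact ⟨⊤, inferInstance, inferInstance⟩
  have h1 : Subsingleton (G ⧸ derivedSeries G 3) := inferInstance
  exact ⟨h _, fun _ => h _⟩

/-- reduction to the subgroup `H` -/
theorem G_tri {G : Type u} [Group G] (S : Set G) (hfin : S.Finite) (hsym : S⁻¹ = S)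
    (hgen : closure S = ⊤) (H : Subgroup G) (d : ℕ) (hH : H.index ≠ 0) (hd : H.index ≤ d) :
    Exc H ∨ (S.Nonempty ∧ (∃ s ∈ S, s ≠ 1) ∧
      ((∀ n : ℕ, 2 ^ n ≤ (Nat.card ↥((TT S H d) ^ n)) ^ 88) ∨ DataG H (TT S H d))) := by
  by_cases htriv : ∃ s ∈ S, s ≠ 1
  swap
  · left
    push Not at htriv
    have h1 : ∀ x : G, x = 1 := by
      intro x
      have hx : x ∈ closure S := by rw [hgen]; exact mem_top x
      have h2 : closure S ≤ ⊥ := (closure_le _).2 (fun s hs => Subgroup.mem_bot.2 (htriv s hs))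
      exact Subgroup.mem_bot.1 (h2 hx)
    have hs : Subsingleton G := ⟨fun a b => by rw [h1 a, h1 b]⟩
    have hsH : Subsingleton H := inferInstance
    exact exc_of_sub H
  have hne : S.Nonempty := ⟨_, htriv.choose_spec.1⟩
  set T := TT S H d with hT
  have hTfin : T.Finite := TT_finite S hfin H d
  have hTgen : closure T = ⊤ := TT_gen S hgen H hH hd
  have h1T : (1 : H) ∈ T := by
    show ((1 : H) : G) ∈ (insert 1 S) ^ (2 * d - 1)
    have : (1 : G) ∈ insert 1 S := Set.mem_insert _ _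
    simpa using Set.pow_mem_pow (n := 2 * d - 1) this
  have hinv1 : (insert 1 S)⁻¹ = insert 1 S := by
    rw [Set.inv_insert, inv_one, hsym]
  have hTinv : T⁻¹ = T := by
    ext x
    rw [Set.mem_inv]
    constructor
    · intro hx
      have := inv_mem_pow hinv1 (show ((x⁻¹ : H) : G) ∈ (insert 1 S) ^ (2 * d - 1) from hx)
      rw [← coe_inv, inv_inv] at this
      exact this
    · intro hx
      exact inv_mem_pow hinv1 (show (x : G) ∈ (insert 1 S) ^ (2 * d - 1) from hx)
  rcases tri T hTfin h1T hTinv hTgen with h | h | h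
  · exact Or.inr ⟨hne, htriv, Or.inl h⟩
  · exact Or.inl h
  · exact Or.inr ⟨hne, htriv, Or.inr h⟩

theorem G_main {G : Type u} [Group G] (S : Set G) (hfin : S.Finite) (hsym : S⁻¹ = S)
    (hgen : closure S = ⊤) (H : Subgroup G) (d : ℕ) (hH : H.index ≠ 0) (hd : H.index ≤ d) :
    Exc H ∨ 1 / (1408 * d) ≤ H746UG.rho S ∨
      ∃ z : ℂ, UnitNR z ∧ EV H z ∧ DegLe H z ∧
        min 1 (Real.log (MM z)) / (1408 * d) ≤ H746UG.rho S := by
  rcases G_tri S hfin hsym hgen H d hH hd with h | ⟨hne, -, h⟩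
  · exact Or.inl h
  right
  have hd1 : 1 ≤ d := by omega
  have hdR : (1 : ℝ) ≤ d := by exact_mod_cast hd1
  have h4 := rho_TT S hfin hne H hd1
  have he : ((2 * d - 1 : ℕ) : ℝ) = 2 * d - 1 := by
    rw [Nat.cast_sub (by omega)]; push_cast; ring
  rw [he] at h4
  have hl2 := Real.log_two_gt_d9
  have key : ∀ x : ℝ, 0 ≤ x → x / 704 ≤ H746UG.rho (TT S H d) → x / (1408 * d) ≤ H746UG.rho S := by
    intro x hx h
    have h5 := h.trans h4
    have h6 : 0 ≤ H746UG.rho S := by
      by_contra hcon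
      push Not at hcon
      nlinarith
    rw [div_le_iff₀ (by positivity)]
    nlinarith
  rcases h with h | h
  · left
    refine key 1 zero_le_one ?_
    have h3 := rho_ge_88 (TT S H d) h
    linarith
  · right
    obtain ⟨z, hz, hev, hdeg, hrho⟩ := T_main (TT S H d) h
    have h1 := log_base_ge (MM_ge z hz.1)
    refine ⟨z, hz, hev, hdeg, key _ (le_min zero_le_one (Real.log_nonneg (MM_ge z hz.1))) ?_⟩
    linarith

theorem G_unc : ∃ c : ℝ, 0 < c ∧ ∀ (G : Type u) [Group G] (S : Set G), S.Finite → S⁻¹ = S →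
    closure S = ⊤ → ∀ (H : Subgroup G) (d : ℕ), H.index ≠ 0 → H.index ≤ d →
      Exc H ∨ ∀ n : ℕ, 1 ≤ n →
        Real.exp (c * n / (d * (Real.log (2 * n)) ^ 3)) ≤ (Nat.card ↥((insert 1 S) ^ n) : ℝ) := by
  obtain ⟨c, hc, hc4, hT⟩ := T_unc.{u}
  have hl2 : 0 < Real.log 2 := Real.log_pos (by norm_num)
  refine ⟨c / 352, by positivity, ?_⟩
  intro G _ S hfin hsym hgen H d hH hd
  rcases G_tri S hfin hsym hgen H d hH hd with h | ⟨hne, ⟨s, hs, hs1⟩, h⟩
  · exact Or.inl h
  right
  intro n hn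
  have hd1 : 1 ≤ d := by omega
  have hdR : (1 : ℝ) ≤ d := by exact_mod_cast hd1
  have hnR : (1 : ℝ) ≤ n := by exact_mod_cast hn
  set l := Real.log (2 * n) with hl
  have hll : Real.log 2 ≤ l := Real.log_le_log (by norm_num) (by linarith)
  have hl0 : 0 < l := by linarith
  have hl3 : (Real.log 2) ^ 3 ≤ l ^ 3 := pow_le_pow_left₀ hl2.le hll 3
  have hl3p : 0 < l ^ 3 := by positivity
  have hfin1 : (insert 1 S).Finite := hfin.insert 1
  have hcardpos : ∀ m, 0 < Nat.card ↥((insert 1 S) ^ m) := fun m =>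
    one_le_card hfin1 (Set.mem_insert _ _) m
  have hpos : (0 : ℝ) < Nat.card ↥((insert 1 S) ^ n) := by exact_mod_cast hcardpos n
  rw [← Real.log_le_log_iff (Real.exp_pos _) hpos, Real.log_exp]
  set q := 22 * (2 * d - 1) with hq
  have hq1 : 1 ≤ q := by omega
  have hqR : (q : ℝ) ≤ 44 * d := by
    have : q ≤ 44 * d := by omega
    exact_mod_cast this
  have hqR0 : (0 : ℝ) < q := by exact_mod_cast hq1
  rcases lt_or_ge n q with hlt | hge
  · -- small `n`
    have h2 : 2 ≤ Nat.card ↥((insert 1 S) ^ n) := by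
      have hf : ((insert 1 S) ^ n).Finite := finite_pow hfin1 n
      rw [Nat.card_coe_set_eq]
      have h1m : (1 : G) ∈ (insert 1 S) ^ n := by
        simpa using Set.pow_mem_pow (n := n) (Set.mem_insert (1 : G) S)
      have hsm : s ∈ (insert 1 S) ^ n := by
        have h3 := W963.GE.pow_mono S hn
        rw [pow_one] at h3
        exact h3 (Set.mem_insert_of_mem _ hs)
      have h3 : ({1, s} : Set G) ⊆ (insert 1 S) ^ n := by
        rintro x (rfl | rfl)
        · exact h1m
        · exact hsm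
      have h4 := Set.ncard_le_ncard h3 hf
      rwa [Set.ncard_pair (Ne.symm hs1)] at h4
    have h3 : Real.log 2 ≤ Real.log (Nat.card ↥((insert 1 S) ^ n)) :=
      Real.log_le_log (by norm_num) (by exact_mod_cast h2)
    refine le_trans ?_ h3
    have h4 : (n : ℝ) ≤ 44 * d := by
      have : (n : ℝ) ≤ q := by exact_mod_cast hlt.le
      linarith
    rw [div_le_iff₀ (by positivity)]
    calc c / 352 * n ≤ (Real.log 2) ^ 4 / 352 * (44 * d) := by gcongr
      _ = (Real.log 2) ^ 4 * (d / 8) := by ring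
      _ ≤ (Real.log 2) ^ 4 * d := by
          apply mul_le_mul_of_nonneg_left _ (by positivity)
          linarith
      _ = Real.log 2 * (d * (Real.log 2) ^ 3) := by ring
      _ ≤ Real.log 2 * (d * l ^ 3) := by gcongr
  · set R := n / q with hR
    have hR1 : 1 ≤ R := (Nat.one_le_div_iff (by omega)).2 hge
    have hRq : R * q ≤ n := Nat.div_mul_le_self n q
    have hRn : n < (R + 1) * q := by
      have := Nat.lt_div_mul_add (a := n) (b := q) (by omega)
      rw [add_mul, one_mul]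
      exact this
    have h1 := hT H (TT S H d) h R hR1
    have h2 : Nat.card ↥((TT S H d) ^ (22 * R)) ≤ Nat.card ↥((insert 1 S) ^ n) := by
      refine (card_TT_pow S hfin H d (22 * R)).trans ?_
      refine Nat.card_mono (finite_pow hfin1 n) (W963.GE.pow_mono S ?_)
      calc (2 * d - 1) * (22 * R) = R * q := by rw [hq]; ring
        _ ≤ n := hRq
    have h3 : Real.log (Nat.card ↥((TT S H d) ^ (22 * R))) ≤
        Real.log (Nat.card ↥((insert 1 S) ^ n)) := by
      rcases Nat.eq_zero_or_pos (Nat.card ↥((TT S H d) ^ (22 * R))) with h0 | h0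
      · rw [h0, Nat.cast_zero, Real.log_zero]
        exact Real.log_nonneg (by exact_mod_cast hcardpos n)
      · apply Real.log_le_log (by exact_mod_cast h0)
        exact_mod_cast h2
    refine le_trans ?_ (h1.trans h3)
    have hRR : (1 : ℝ) ≤ R := by exact_mod_cast hR1
    have hRnR : (n : ℝ) ≤ 2 * R * q := by
      have : (n : ℝ) < (R + 1) * q := by exact_mod_cast hRn
      nlinarith
    have hRle : (R : ℝ) ≤ n := by
      have h5 : R ≤ n := (Nat.le_mul_of_pos_right R (by omega)).trans hRq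
      exact_mod_cast h5
    set l' := Real.log (2 * R) with hl'
    have hl'0 : 0 < l' := Real.log_pos (by linarith)
    have hl'l : l' ≤ l := Real.log_le_log (by linarith) (by linarith)
    have h5 : n / (d * l ^ 3) ≤ 88 * R / l' ^ 3 := by
      rw [div_le_div_iff₀ (by positivity) (by positivity)]
      have h6 : (n : ℝ) ≤ 88 * R * d := by nlinarith
      calc (n : ℝ) * l' ^ 3 ≤ (88 * R * d) * l ^ 3 := by gcongr
        _ = 88 * R * (d * l ^ 3) := by ring
    calc c / 352 * n / (d * l ^ 3) = c / 352 * (n / (d * l ^ 3)) := by ring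
      _ ≤ c / 352 * (88 * R / l' ^ 3) := by gcongr
      _ = c * R / l' ^ 3 / 4 := by ring

end Pool.Agent.K9h73.DL
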