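import Pool.Agent.K9h73.DL.Core
import Pool.Agent.K9h73.DL.Eig
import Pool.Agent.H648R4.Nilp
import Pool.Agent.H785R3.GrowthR

/-!
# The general trichotomy
-/

set_option autoImplicit false

namespace Pool.Agent.K9h73.DL

open Pool.Agent.N600.G3
open scoped Pointwise commutatorElement
open Subgroup Filter Topology
open Pool.Agent.Helper111.EN.NSc (NS NS_ext NS_of_nilpotent_fg NS_top_iff)

universe u

/-- `(G / G''')'` is virtually nilpotent; if `G''` is nilpotent then `G'` is virtually nilpotent -/
def Exc (G : Type*) [Group G] : Prop :=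
  Group.IsVirtuallyNilpotent (commutator (G ⧸ derivedSeries G 3)) ∧
    (Group.IsNilpotent (derivedSeries G 2) → Group.IsVirtuallyNilpotent (commutator G))

/-- the projection of the derived subgroups -/
def prj (G : Type*) [Group G] (D : Subgroup G) [D.Normal] :
    commutator G →* commutator (G ⧸ D) where
  toFun x := ⟨QuotientGroup.mk' D x, by
    have h : (commutator G).map (QuotientGroup.mk' D) ≤ commutator (G ⧸ D) := by
      rw [_root_.commutator_def, map_commutator]
      exact commutator_mono le_top le_top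
    exact h ⟨x, x.2, rfl⟩⟩
  map_one' := Subtype.ext (map_one _)
  map_mul' x y := Subtype.ext (map_mul _ _ _)

lemma prj_surj (G : Type*) [Group G] (D : Subgroup G) [D.Normal] :
    Function.Surjective (prj G D) := by
  rintro ⟨y, hy⟩
  have h : (commutator G).map (QuotientGroup.mk' D) = commutator (G ⧸ D) := by
    rw [_root_.commutator_def, map_commutator,
      map_top_of_surjective _ (QuotientGroup.mk'_surjective D), ← _root_.commutator_def]
  rw [← h] at hy
  obtain ⟨x, hx, rfl⟩ := hy
  exact ⟨⟨x, hx⟩, rfl⟩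

lemma der_two (G : Type*) [Group G] :
    (commutator (commutator G)).map (commutator G).subtype = derivedSeries G 2 := by
  rw [map_subtype_commutator, derivedSeries_succ, derivedSeries_one]

lemma der_three (G : Type*) [Group G] :
    derivedSeries G 3 = ⁅derivedSeries G 2, derivedSeries G 2⁆ := derivedSeries_succ G 2

lemma der_two_le (G : Type*) [Group G] : derivedSeries G 2 ≤ commutator G := by
  rw [← derivedSeries_one]
  exact derivedSeries_antitone G (by norm_num)

lemma mem_cc {G : Type*} [Group G] {x : commutator G} :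
    x ∈ commutator (commutator G) ↔ (x : G) ∈ derivedSeries G 2 := by
  rw [← der_two]
  constructor
  · intro h
    exact ⟨x, h, rfl⟩
  · rintro ⟨y, hy, hyx⟩
    rwa [← (Subtype.ext hyx : y = x)]

/-- the virtually nilpotent case -/
theorem exc_of_sv (G : Type u) [Group G] (h : SV (commutator (G ⧸ derivedSeries G 3))) :
    Exc G := by
  obtain ⟨L, hLn, hLf, hL, hLnil⟩ := h
  refine ⟨⟨L, hLnil, hLf⟩, fun hnil => ?_⟩
  set D := derivedSeries G 3 with hD
  let N : Subgroup (commutator G) := commutator (commutator G)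
  let L2 : Subgroup (commutator G) := L.comap (prj G D)
  have hL2n : L2.Normal := hLn.comap _
  have hL2f : L2.FiniteIndex :=
    ⟨by
      show (L.comap (prj G D)).index ≠ 0
      rw [index_comap_of_surjective _ (prj_surj G D)]
      exact hLf.index_ne_zero⟩
  have hNL : N ≤ L2 := by
    intro x hx
    apply hL
    have h1 : N.map (prj G D) ≤ commutator (commutator (G ⧸ D)) := by
      show (commutator (commutator G)).map (prj G D) ≤ _
      rw [_root_.commutator_def ↥(_root_.commutator G), map_commutator]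
      exact commutator_mono le_top le_top
    exact h1 ⟨x, hx, rfl⟩
  obtain ⟨n, hn⟩ := (Subgroup.isNilpotent_iff_lowerCentralSeries L).1 hLnil
  have hNnil : Group.IsNilpotent N := by
    have e := N.equivMapOfInjective (commutator G).subtype (commutator G).subtype_injective
    have h1 : N.map (commutator G).subtype = derivedSeries G 2 := der_two G
    rw [h1] at e
    exact (Group.isNilpotent_congr e).2 hnil
  obtain ⟨c, hc⟩ := (Subgroup.isNilpotent_iff_lowerCentralSeries N).1 hNnil
  have h1 : L2.lowerCentralSeries n ≤ ⁅N, N⁆ := by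
    intro a ha
    have h2 := H785R3.GrowthA.lcs_map (prj G D) L2 L (map_comap_le _ _) n (mem_map_of_mem _ ha)
    rw [hn, Subgroup.mem_bot] at h2
    have h3 : (QuotientGroup.mk' D) (a : G) = 1 := congrArg Subtype.val h2
    have h4 : (a : G) ∈ D := (QuotientGroup.eq_one_iff _).1 h3
    have h5 : D = (⁅N, N⁆ : Subgroup (commutator G)).map (commutator G).subtype := by
      rw [map_commutator, hD, der_three]
      have : N.map (commutator G).subtype = derivedSeries G 2 := der_two G
      rw [this]
    rw [h5] at h4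
    obtain ⟨y, hy, hya⟩ := h4
    rwa [← (Subtype.ext hya : y = a)]
  obtain ⟨m, hm⟩ := H648R4.hall hNL hc h1
  exact ⟨L2, (Subgroup.isNilpotent_iff_lowerCentralSeries L2).2 ⟨m, hm⟩, hL2f⟩

/-- the data for a general group -/
def DataG (G : Type*) [Group G] (T : Set G) : Prop :=
  ∃ (K : ℕ) (t : Fin K → G) (γ : Fin K → ℂ) (g0 : Finset (Fin K))
    (f : derivedSeries G 2 →* Multiplicative ℂ),
    0 < K ∧ K ≤ 2 * g0.card ∧ (∀ k, t k ∈ commutator G) ∧
    (∀ k, IsIntegral ℤ (γ k) ∧ IsIntegral ℤ (γ k)⁻¹ ∧ γ k ≠ 0) ∧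
    (∀ k ∈ g0, ∀ m > 0, γ k ^ m ≠ 1) ∧
    (∃ x, (f x).toAdd ≠ 0) ∧
    (∀ k x, (f (MulAut.conjNormal (t k) x)).toAdd = γ k * (f x).toAdd) ∧
    Module.Finite ℤ (Additive (Abelianization (derivedSeries G 2))) ∧
    ∀ R : ℕ, ∑ k ∈ g0, hF (fun r : Fin R => γ k ^ (r : ℕ)) / 2 ≤
      K * Real.log (Nat.card ↥(T ^ (22 * R)))

theorem data_lift {G : Type u} [Group G] (T : Set G) (hfin : T.Finite)
    (hNS : NS (⊤ : Subgroup (G ⧸ derivedSeries G 3)))
    (h1T : 1 ∈ T)
    (h : Data (G ⧸ derivedSeries G 3) (QuotientGroup.mk' (derivedSeries G 3) '' T)) :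
    DataG G T := by
  classical
  obtain ⟨χ, f, K, t, g0, hf1, hf2, ⟨y0, hy0, hfy0⟩, hint, hK, hKg, htors, hR⟩ := h
  set D := derivedSeries G 3 with hD
  have hsurj := prj_surj G D
  choose s hs using fun k => hsurj (t k)
  -- elements of the second derived subgroup
  let ι : derivedSeries G 2 →* commutator G := Subgroup.inclusion (der_two_le G)
  have hι : ∀ x, ι x ∈ commutator (commutator G) := fun x => mem_cc.2 x.2
  have hν : ∀ x, prj G D (ι x) ∈ commutator (commutator (G ⧸ D)) := by
    intro x
    have h1 : (commutator (commutator G)).map (prj G D) ≤ commutator (commutator (G ⧸ D)) := by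
      rw [_root_.commutator_def ↥(_root_.commutator G), map_commutator]
      exact commutator_mono le_top le_top
    exact h1 ⟨ι x, hι x, rfl⟩
  have hf_one : f 1 = 0 := by
    have := hf1 1 (one_mem _) 1 (one_mem _)
    rw [mul_one] at this
    simpa using this
  let F : derivedSeries G 2 →* Multiplicative ℂ :=
    { toFun := fun x => Multiplicative.ofAdd (f (prj G D (ι x)))
      map_one' := by
        rw [map_one, map_one, hf_one]; rfl
      map_mul' := fun x y => by
        rw [map_mul, map_mul, hf1 _ (hν x) _ (hν y)]; rfl }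
  have hval : ∀ m : commutator (G ⧸ D), (χ m : ℂ)⁻¹ = (χ m⁻¹ : ℂ) := by
    intro m
    rw [map_inv, Units.val_inv_eq_inv_val]
  refine ⟨K, fun k => (s k : G), fun k => (χ (t k) : ℂ), g0, F, hK, hKg, fun k => (s k).2, ?_,
    htors, ?_, ?_, ?_, ?_⟩
  · intro k
    refine ⟨hint _, ?_, Units.ne_zero _⟩
    rw [hval]
    exact hint _
  · have h1 : (y0 : G ⧸ D) ∈ derivedSeries (G ⧸ D) 2 := mem_cc.1 hy0
    rw [← map_derivedSeries_eq (QuotientGroup.mk'_surjective D) 2] at h1
    obtain ⟨x, hx, hxy⟩ := h1
    refine ⟨⟨x, hx⟩, ?_⟩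
    show f (prj G D (ι ⟨x, hx⟩)) ≠ 0
    have h2 : prj G D (ι ⟨x, hx⟩) = y0 := Subtype.ext hxy
    rw [h2]
    exact hfy0
  · intro k x
    show f (prj G D (ι (MulAut.conjNormal (s k : G) x))) = χ (t k) * f (prj G D (ι x))
    have h1 : ι (MulAut.conjNormal (s k : G) x) = s k * ι x * (s k)⁻¹ := rfl
    rw [h1, map_mul, map_mul, map_inv, hs, hf2 _ _ (hν x)]
  · exact fin_of_map (derivedSeries G 2) D (der_three G) (hNS _ le_top)
  · intro R
    refine (hR R).trans ?_
    refine mul_le_mul_of_nonneg_left ?_ (Nat.cast_nonneg K)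
    have h1 := card_map_pow (QuotientGroup.mk' D) T hfin (22 * R)
    have h2 := one_le_card (hfin.image (QuotientGroup.mk' D)) ⟨1, h1T, map_one _⟩ (22 * R)
    apply Real.log_le_log
    · exact_mod_cast h2
    · exact_mod_cast h1

/-- **the general trichotomy** -/
theorem tri {G : Type u} [Group G] (T : Set G) (hfin : T.Finite) (h1T : 1 ∈ T)
    (hinv : T⁻¹ = T) (hgen : closure T = ⊤) :
    (∀ n : ℕ, 2 ^ n ≤ (Nat.card ↥(T ^ n)) ^ 88) ∨ Exc G ∨ DataG G T := by
  let D := derivedSeries G 3
  let π : G →* G ⧸ D := QuotientGroup.mk' D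
  have hπ : Function.Surjective π := QuotientGroup.mk'_surjective D
  have hgen' : closure (π '' T) = ⊤ := by
    rw [← MonoidHom.map_closure, hgen, ← MonoidHom.range_eq_map]
    exact MonoidHom.range_eq_top.2 hπ
  have hinv' : (π '' T)⁻¹ = π '' T := by
    rw [← Set.image_inv, hinv]
  have h1' : (1 : G ⧸ D) ∈ π '' T := ⟨1, h1T, map_one π⟩
  have hbot : derivedSeries (G ⧸ D) 3 = ⊥ := by
    rw [← map_derivedSeries_eq hπ 3, eq_bot_iff]
    rintro _ ⟨x, hx, rfl⟩
    rw [Subgroup.mem_bot]
    exact (QuotientGroup.eq_one_iff x).2 hx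
  have habel : ∀ x ∈ commutator (commutator (G ⧸ D)), ∀ y ∈ commutator (commutator (G ⧸ D)),
      x * y = y * x := by
    intro x hx y hy
    have h1 : ⁅(x : G ⧸ D), (y : G ⧸ D)⁆ ∈ derivedSeries (G ⧸ D) 3 := by
      rw [der_three]
      exact commutator_mem_commutator (mem_cc.1 hx) (mem_cc.1 hy)
    rw [hbot, Subgroup.mem_bot, commutatorElement_eq_one_iff_mul_comm] at h1
    exact Subtype.ext h1
  rcases core (π '' T) (hfin.image π) h1' hinv' hgen' habel with h | ⟨hNS, h | h⟩
  · left
    intro n
    exact (h n).trans (Nat.pow_le_pow_left (card_map_pow π T hfin n) 88)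
  · right; left
    exact exc_of_sv G h
  · right; right
    exact data_lift T hfin hNS h1T h

end Pool.Agent.K9h73.DL
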